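import Mathlib

/-! The Balog-Szemeredi-Gowers lemma (energy form, Schoen's proof). -/

set_option autoImplicit false

namespace Pool.Agent.P.MP_42fc1a_nt

open Finset
open scoped Pointwise

variable {G : Type*} [AddCommGroup G] [Fintype G] [DecidableEq G]

/-- number of representations of `d` as a difference of two elements of `A` -/
def rr (A : Finset G) (d : G) : ℝ := (A.filter fun x => x - d ∈ A).card

omit [Fintype G] in
theorem rr_nonneg (A : Finset G) (d : G) : 0 ≤ rr A d := Nat.cast_nonneg _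

omit [Fintype G] in
theorem rr_le (A : Finset G) (d : G) : rr A d ≤ A.card := by
  unfold rr; exact_mod_cast card_filter_le _ _

omit [Fintype G] in
theorem rr_eq (A : Finset G) (d : G) : rr A d = ∑ x ∈ A, if x - d ∈ A then (1 : ℝ) else 0 := by
  unfold rr; rw [card_filter]; push_cast; rfl

theorem sum_ind_sub (A : Finset G) (x : G) :
    ∑ d, (if x - d ∈ A then (1 : ℝ) else 0) = A.card := by
  rw [← Equiv.sum_comp (Equiv.subLeft x)]
  simp

theorem sum_rr (A : Finset G) : ∑ d, rr A d = (A.card : ℝ) ^ 2 := by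
  simp only [rr_eq]
  rw [sum_comm]
  simp only [sum_ind_sub]
  simp [sq]

theorem sum_ind_pair (A : Finset G) (x y : G) :
    ∑ s, (if x - s ∈ A ∧ y - s ∈ A then (1 : ℝ) else 0) = rr A (x - y) := by
  rw [← Equiv.sum_comp (Equiv.subLeft x), rr_eq]
  simp only [Equiv.subLeft_apply, sub_sub_cancel]
  rw [← sum_subset (subset_univ A)]
  · refine sum_congr rfl fun u hu => ?_
    have : y - (x - u) = u - (x - y) := by abel
    simp [hu, this]
  · intro u _ hu
    simp [hu]

theorem sum_rr_rr (A : Finset G) :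
    ∑ δ, ∑ w, rr A w * rr A (w - δ) = (A.card : ℝ) ^ 4 := by
  rw [sum_comm]
  have : ∀ w, ∑ δ, rr A w * rr A (w - δ) = rr A w * (A.card : ℝ) ^ 2 := by
    intro w
    rw [← mul_sum, ← sum_rr]
    congr 1
    exact Equiv.sum_comp (Equiv.subLeft w) (rr A)
  simp only [this]
  rw [← sum_mul, sum_rr]
  ring

theorem bsg_step (A : Finset G) (hA : A.Nonempty) {K : ℝ} (hK : 0 < K)
    (hE : (A.card : ℝ) ^ 3 ≤ K * ∑ d, rr A d ^ 2) :
    ∃ X ⊆ A, (A.card : ℝ) ^ 2 / (2 * K ^ 2) +
      8 * (((X ×ˢ X).filter fun p => rr A (p.1 - p.2) < A.card / (16 * K ^ 2)).card : ℝ)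
        ≤ (X.card : ℝ) ^ 2 := by
  set a : ℝ := (A.card : ℝ) with ha
  have ha0 : 0 < a := by rw [ha]; exact_mod_cast hA.card_pos
  set τ : ℝ := a / (16 * K ^ 2) with hτ
  have hτ0 : 0 ≤ τ := by positivity
  let X : G → Finset G := fun s => A.filter fun x => x - s ∈ A
  let bad : G → ℝ := fun s => (((X s ×ˢ X s).filter fun p => rr A (p.1 - p.2) < τ).card : ℝ)
  have h1 : (∑ d, rr A d ^ 2) ^ 2 ≤ a ^ 2 * ∑ d, rr A d ^ 3 := by
    rw [← sum_rr]
    refine sum_sq_le_sum_mul_sum_of_sq_le_mul _ (fun d _ => rr_nonneg A d)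
      (fun d _ => pow_nonneg (rr_nonneg A d) 3) (fun d _ => le_of_eq (by ring))
  have h2 : a ^ 4 / K ^ 2 ≤ ∑ d, rr A d ^ 3 := by
    rw [div_le_iff₀ (by positivity)]
    have h3 : (a ^ 3) ^ 2 ≤ (K * ∑ d, rr A d ^ 2) ^ 2 := by gcongr
    have h4 : a ^ 2 * a ^ 4 ≤ a ^ 2 * ((∑ d, rr A d ^ 3) * K ^ 2) := by nlinarith [sq_nonneg K]
    exact le_of_mul_le_mul_left h4 (by positivity)
  have h5 : ∑ s, bad s ≤ a ^ 2 * τ := by
    have : ∀ s, bad s = ∑ p ∈ A ×ˢ A, if rr A (p.1 - p.2) < τ then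
        (if p.1 - s ∈ A ∧ p.2 - s ∈ A then (1 : ℝ) else 0) else 0 := by
      intro s
      have e : (X s ×ˢ X s).filter (fun p => rr A (p.1 - p.2) < τ) =
          (A ×ˢ A).filter fun p => rr A (p.1 - p.2) < τ ∧ (p.1 - s ∈ A ∧ p.2 - s ∈ A) := by
        ext p
        simp only [X, mem_filter, mem_product]
        tauto
      simp only [bad]
      rw [e, card_filter]
      push_cast
      refine sum_congr rfl fun p _ => ?_
      by_cases h : rr A (p.1 - p.2) < τ <;> simp [h]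
    simp only [this]
    rw [sum_comm]
    calc _ ≤ ∑ _p ∈ A ×ˢ A, τ := by
          refine sum_le_sum fun p _ => ?_
          by_cases h : rr A (p.1 - p.2) < τ
          · simp only [h, if_true]
            rw [sum_ind_pair]
            exact h.le
          · simp [h, hτ0]
      _ = a ^ 2 * τ := by simp [ha, sq]
  have h6 : ∑ s, rr A s * bad s ≤ a ^ 3 * τ := by
    calc _ ≤ ∑ s, a * bad s := by
          refine sum_le_sum fun s _ => mul_le_mul_of_nonneg_right (rr_le A s) (Nat.cast_nonneg _)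
      _ = a * ∑ s, bad s := by rw [mul_sum]
      _ ≤ a * (a ^ 2 * τ) := by gcongr
      _ = _ := by ring
  have h7 : ∑ s, rr A s * (a ^ 2 / (2 * K ^ 2) + 8 * bad s) ≤ ∑ s, rr A s * rr A s ^ 2 := by
    have e1 : ∑ s, rr A s * (a ^ 2 / (2 * K ^ 2) + 8 * bad s) =
        a ^ 2 * (a ^ 2 / (2 * K ^ 2)) + 8 * ∑ s, rr A s * bad s := by
      simp only [mul_add, sum_add_distrib]
      rw [← sum_mul, sum_rr, mul_sum]
      congr 1
      exact sum_congr rfl fun s _ => by ring
    have e2 : ∑ s, rr A s * rr A s ^ 2 = ∑ d, rr A d ^ 3 := sum_congr rfl fun s _ => by ring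
    have e3 : a ^ 2 * (a ^ 2 / (2 * K ^ 2)) + 8 * (a ^ 3 * τ) = a ^ 4 / K ^ 2 := by
      rw [hτ]; field_simp; ring
    rw [e1, e2]
    linarith
  by_contra hcon
  push Not at hcon
  have h8 : ∀ s, rr A s ^ 2 < a ^ 2 / (2 * K ^ 2) + 8 * bad s := fun s =>
    hcon (X s) (filter_subset _ _)
  have h9 : ∑ s, rr A s * rr A s ^ 2 < ∑ s, rr A s * (a ^ 2 / (2 * K ^ 2) + 8 * bad s) := by
    refine sum_lt_sum (fun s _ => mul_le_mul_of_nonneg_left (h8 s).le (rr_nonneg A s))
      ⟨0, mem_univ _, mul_lt_mul_of_pos_left (h8 0) ?_⟩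
    have : rr A 0 = a := by simp [rr, ha, filter_true_of_mem]
    rw [this]; exact ha0
  linarith

theorem bsg (A : Finset G) (hA : A.Nonempty) {K : ℝ} (hK : 0 < K)
    (hE : (A.card : ℝ) ^ 3 ≤ K * ∑ d, rr A d ^ 2) :
    ∃ A' ⊆ A, (A.card : ℝ) ≤ 4 * K * A'.card ∧ ((A' - A').card : ℝ) ≤ 1024 * K ^ 5 * A.card := by
  obtain ⟨X, hXA, hX⟩ := bsg_step A hA hK hE
  set a : ℝ := (A.card : ℝ) with ha
  have ha0 : 0 < a := by rw [ha]; exact_mod_cast hA.card_pos
  set τ : ℝ := a / (16 * K ^ 2) with hτ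
  have hτ0 : 0 < τ := by positivity
  set x0 : ℝ := (X.card : ℝ) with hx0
  set b : ℝ := (((X ×ˢ X).filter fun p => rr A (p.1 - p.2) < τ).card : ℝ) with hb
  have hb0 : 0 ≤ b := Nat.cast_nonneg _
  have hx00 : 0 ≤ x0 := Nat.cast_nonneg _
  have hx1 : a ≤ 2 * K * x0 := by
    have h1 : a ^ 2 / (2 * K ^ 2) ≤ x0 ^ 2 := by linarith
    rw [div_le_iff₀ (by positivity)] at h1
    refine (pow_le_pow_iff_left₀ ha0.le (by positivity) two_ne_zero).1 ?_
    nlinarith [sq_nonneg (K * x0)]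
  have hx2 : 0 < x0 := by
    by_contra h
    have : x0 = 0 := le_antisymm (not_lt.1 h) hx00
    rw [this] at hx1
    linarith
  have hb1 : 8 * b ≤ x0 ^ 2 := by
    have : 0 ≤ a ^ 2 / (2 * K ^ 2) := by positivity
    linarith
  let dg : G → ℝ := fun x => ((X.filter fun z => rr A (x - z) < τ).card : ℝ)
  have hdg : ∑ x ∈ X, dg x = b := by
    simp only [dg, hb, card_filter]
    push_cast
    rw [sum_product]
  let A' := X.filter fun x => dg x ≤ x0 / 4
  have hA' : x0 / 2 ≤ A'.card := by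
    have h1 : ((X.filter fun x => ¬ dg x ≤ x0 / 4).card : ℝ) * (x0 / 4) ≤ b := by
      rw [← hdg, ← nsmul_eq_mul, ← sum_const]
      calc _ ≤ ∑ x ∈ X.filter (fun x => ¬ dg x ≤ x0 / 4), dg x :=
            sum_le_sum fun x hx => (not_le.1 (mem_filter.1 hx).2).le
        _ ≤ _ := sum_le_sum_of_subset_of_nonneg (filter_subset _ _)
            fun _ _ _ => Nat.cast_nonneg _
    have h2 : (A'.card : ℝ) + (X.filter fun x => ¬ dg x ≤ x0 / 4).card = x0 := by
      rw [hx0]
      exact_mod_cast card_filter_add_card_filter_not _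
    have h3 : ((X.filter fun x => ¬ dg x ≤ x0 / 4).card : ℝ) ≤ x0 / 2 := by
      by_contra h
      have h := not_le.1 h
      nlinarith
    linarith
  refine ⟨A', (filter_subset _ _).trans hXA, by nlinarith, ?_⟩
  have key : ∀ δ ∈ A' - A', x0 / 2 * τ ^ 2 ≤ ∑ w, rr A w * rr A (w - δ) := by
    intro δ hδ
    obtain ⟨x, hx, y, hy, rfl⟩ := mem_sub.1 hδ
    have hx' := (mem_filter.1 hx).2
    have hy' := (mem_filter.1 hy).2
    let Y := X.filter fun z => ¬ (rr A (x - z) < τ ∨ rr A (y - z) < τ)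
    have hY : x0 / 2 ≤ Y.card := by
      have h2 : ((X.filter fun z => rr A (x - z) < τ ∨ rr A (y - z) < τ).card : ℝ) + Y.card
          = x0 := by
        rw [hx0]
        exact_mod_cast card_filter_add_card_filter_not _
      have h3 : ((X.filter fun z => rr A (x - z) < τ ∨ rr A (y - z) < τ).card : ℝ)
          ≤ dg x + dg y := by
        rw [filter_or]
        simp only [dg]
        exact_mod_cast card_union_le _ _
      linarith
    rw [← Equiv.sum_comp (Equiv.subLeft x)]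
    simp only [Equiv.subLeft_apply]
    calc x0 / 2 * τ ^ 2 ≤ Y.card * τ ^ 2 := by gcongr
      _ = ∑ _z ∈ Y, τ * τ := by simp [sq]
      _ ≤ ∑ z ∈ Y, rr A (x - z) * rr A (x - z - (x - y)) := by
          refine sum_le_sum fun z hz => ?_
          have h := (mem_filter.1 hz).2
          push Not at h
          have e : x - z - (x - y) = y - z := by abel
          rw [e]
          exact mul_le_mul h.1 h.2 hτ0.le (rr_nonneg _ _)
      _ ≤ _ := sum_le_sum_of_subset_of_nonneg (subset_univ _)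
          fun _ _ _ => mul_nonneg (rr_nonneg _ _) (rr_nonneg _ _)
  have h1 : ((A' - A').card : ℝ) * (x0 / 2 * τ ^ 2) ≤ a ^ 4 := by
    rw [← sum_rr_rr A, ← nsmul_eq_mul, ← sum_const]
    calc _ ≤ ∑ δ ∈ A' - A', ∑ w, rr A w * rr A (w - δ) := sum_le_sum key
      _ ≤ _ := sum_le_sum_of_subset_of_nonneg (subset_univ _)
          fun _ _ _ => sum_nonneg fun _ _ => mul_nonneg (rr_nonneg _ _) (rr_nonneg _ _)
  set D : ℝ := ((A' - A').card : ℝ)
  have hD : 0 ≤ D := Nat.cast_nonneg _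
  have h2 : D * (a / (4 * K) * τ ^ 2) ≤ a ^ 4 := by
    refine le_trans ?_ h1
    have : a / (4 * K) ≤ x0 / 2 := by
      rw [div_le_iff₀ (by positivity)]
      linarith
    exact mul_le_mul_of_nonneg_left (mul_le_mul_of_nonneg_right this (by positivity)) hD
  have h3 : a / (4 * K) * τ ^ 2 = a ^ 3 / (1024 * K ^ 5) := by
    rw [hτ]; field_simp; ring
  rw [h3, ← mul_div_assoc, div_le_iff₀ (by positivity)] at h2
  have h4 : D * a ^ 3 ≤ (1024 * K ^ 5 * a) * a ^ 3 := by linarith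
  exact le_of_mul_le_mul_right h4 (by positivity)

end Pool.Agent.P.MP_42fc1a_nt
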