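import Mathlib

/-! The distortion method of Balister, Bollobas, Morris, Sahasrabudhe and Tiba. -/

set_option autoImplicit false
set_option linter.unusedSectionVars false

namespace Pool.Agent.P.MP_42fc1a_nt

open Finset Function

section general

variable {ι Ω : Type*} [Fintype ι] [DecidableEq ι] [Fintype Ω] [Nonempty Ω]

/-- `f` does not depend on coordinate `j` -/
def Ind {α : Type*} (f : (ι → Ω) → α) (j : ι) : Prop := ∀ x ω, f (update x j ω) = f x

open Classical in
/-- indicator of a proposition -/
noncomputable def ind (P : Prop) : ℝ := if P then 1 else 0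

theorem ind_nonneg (P : Prop) : 0 ≤ ind P := by unfold ind; split_ifs <;> norm_num

theorem ind_pos {P : Prop} (h : P) : ind P = 1 := by simp [ind, h]

theorem ind_neg {P : Prop} (h : ¬ P) : ind P = 0 := by simp [ind, h]

/-- the conditional probability of `B` in the fibre of coordinate `j` -/
noncomputable def al (B : (ι → Ω) → Prop) (j : ι) (x : ι → Ω) : ℝ :=
  (∑ ω, ind (B (update x j ω))) / Fintype.card Ω

theorem al_nonneg (B : (ι → Ω) → Prop) (j : ι) (x : ι → Ω) : 0 ≤ al B j x :=
  div_nonneg (sum_nonneg fun _ _ => ind_nonneg _) (Nat.cast_nonneg _)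

theorem al_ind (B : (ι → Ω) → Prop) (j : ι) {i : ι} (h : i = j ∨ Ind B i) : Ind (al B j) i := by
  intro x ω
  by_cases hij : i = j
  · simp [al, hij]
  · have h := h.resolve_left hij
    simp only [al, update_comm hij, h _ _]

theorem sum_update (g : (ι → Ω) → ℝ) (j : ι) :
    ∑ x, ∑ ω, g (update x j ω) = Fintype.card Ω * ∑ x, g x := by
  have hinv : Involutive fun p : (ι → Ω) × Ω => (update p.1 j p.2, p.1 j) := fun p => by simp
  rw [← Fintype.sum_prod_type', ← Equiv.sum_comp hinv.toPerm, Fintype.sum_prod_type]
  simp [mul_sum]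

theorem sum_mul_eq {g : (ι → Ω) → ℝ} {j : ι} (hg : Ind g j) (r r' : (ι → Ω) → ℝ)
    (h : ∀ x, ∑ ω, r (update x j ω) = Fintype.card Ω * r' x) :
    ∑ x, g x * r x = ∑ x, g x * r' x := by
  have hΩ : (Fintype.card Ω : ℝ) ≠ 0 := by exact_mod_cast Fintype.card_ne_zero
  refine mul_left_cancel₀ hΩ ?_
  rw [← sum_update (fun x => g x * r x) j, mul_sum]
  refine sum_congr rfl fun x _ => ?_
  simp only [hg _ _, ← mul_sum, h]
  ring

/-- the distortion factor -/
noncomputable def rho (A : (ι → Ω) → Prop) (j : ι) (x : ι → Ω) : ℝ :=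
  if al A j x ≤ 1 / 6 then (1 - ind (A x)) / (1 - al A j x) else 1

theorem rho_bd (A : (ι → Ω) → Prop) (j : ι) (x : ι → Ω) :
    0 ≤ rho A j x ∧ rho A j x ≤ 6 / 5 := by
  unfold rho
  split_ifs with h
  · have h1 : 0 < 1 - al A j x := by linarith
    rw [div_le_iff₀ h1]
    by_cases hA : A x
    · rw [ind_pos hA]; constructor <;> [simp; linarith]
    · rw [ind_neg hA]; constructor <;> [exact div_nonneg (by norm_num) h1.le; linarith]
  · norm_num

theorem rho_ind (A : (ι → Ω) → Prop) (j : ι) {i : ι} (h : Ind A i) : Ind (rho A j) i := by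
  intro x ω
  simp only [rho, al_ind A j (Or.inr h) _ _, h _ _]

theorem sum_ind_update (A : (ι → Ω) → Prop) (j : ι) (x : ι → Ω) :
    ∑ ω, ind (A (update x j ω)) = Fintype.card Ω * al A j x := by
  have hΩ : (Fintype.card Ω : ℝ) ≠ 0 := by exact_mod_cast Fintype.card_ne_zero
  rw [al, mul_div_cancel₀ _ hΩ]

theorem sum_rho {g : (ι → Ω) → ℝ} {j : ι} (hg : Ind g j) (A : (ι → Ω) → Prop) :
    ∑ x, g x * rho A j x = ∑ x, g x := by
  rw [sum_mul_eq hg (rho A j) (fun _ => 1)]
  · simp
  · intro x
    simp only [rho, al_ind A j (Or.inl rfl) _ _]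
    split_ifs with h
    · have h1 : 1 - al A j x ≠ 0 := by linarith
      rw [← sum_div, sum_sub_distrib, sum_ind_update]
      simp only [sum_const, card_univ, nsmul_eq_mul]
      field_simp
    · simp

theorem sum_rho_loss {g : (ι → Ω) → ℝ} {j : ι} (hg : Ind g j) (h0 : ∀ x, 0 ≤ g x)
    (A : (ι → Ω) → Prop) :
    ∑ x, g x * rho A j x * ind (A x) ≤ 6 * ∑ x, g x * al A j x ^ 2 := by
  have h1 : ∀ x, g x * rho A j x * ind (A x) =
      (g x * if al A j x ≤ 1 / 6 then 0 else 1) * ind (A x) := by
    intro x
    by_cases hA : A x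
    · unfold rho
      rw [ind_pos hA]
      split_ifs <;> simp
    · rw [ind_neg hA]; simp
  simp only [h1]
  rw [sum_mul_eq (j := j) (fun x ω => by simp only [hg _ _, al_ind A j (Or.inl rfl) _ _]) _ _
    (sum_ind_update A j), mul_sum]
  refine sum_le_sum fun x _ => ?_
  have := al_nonneg A j x
  have := h0 x
  split_ifs with h
  · simp only [mul_zero, zero_mul]; positivity
  · nlinarith [mul_nonneg (mul_nonneg (h0 x) (al_nonneg A j x)) (sub_nonneg.2 (not_le.1 h).le)]

end general

variable {n : ℕ} {Ω τ : Type*} [Fintype Ω] [Nonempty Ω]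

/-- the loss term of a pair of events -/
noncomputable def loss (B : τ → (Fin n → Ω) → Prop) (J : τ → Finset (Fin n)) (top : τ → Fin n)
    (t t' : τ) : ℝ :=
  (6 / 5) ^ (J t ∪ J t').card * ∑ x, al (B t) (top t) x * al (B t') (top t') x

theorem dist_aux (T : Finset τ) (B : τ → (Fin n → Ω) → Prop) (J : τ → Finset (Fin n))
    (top : τ → Fin n) (hdep : ∀ t ∈ T, ∀ j ∉ J t, Ind (B t) j)
    (htop : ∀ t ∈ T, ∀ j ∈ J t, j ≤ top t) (m : ℕ) (hm : m ≤ n) :
    ∃ w : (Fin n → Ω) → ℝ, (∀ x, 0 ≤ w x) ∧ (∀ j : Fin n, m ≤ j.val → Ind w j) ∧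
      (∀ (S : Finset (Fin n)) (f : (Fin n → Ω) → ℝ), (∀ x, 0 ≤ f x) → (∀ j ∉ S, Ind f j) →
        ∑ x, w x * f x ≤ (6 / 5) ^ (S.filter fun i => i.val < m).card * ∑ x, f x) ∧
      ∑ x, w x = Fintype.card (Fin n → Ω) ∧
      ∑ x, w x * ind (∃ t ∈ T, (top t).val < m ∧ B t x) ≤
        6 * ∑ t ∈ T, ∑ t' ∈ T, if top t = top t' ∧ (top t).val < m then loss B J top t t' else 0 := by
  induction m with
  | zero =>
    refine ⟨fun _ => 1, fun _ => zero_le_one, fun _ _ _ _ => rfl, fun S f _ _ => by simp, by simp,
      by simp [ind]⟩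
  | succ m ih =>
    obtain ⟨w, w0, w1, w2, w3, w4⟩ := ih (by omega)
    let j : Fin n := ⟨m, hm⟩
    let A : (Fin n → Ω) → Prop := fun x => ∃ t ∈ T, top t = j ∧ B t x
    have hwj : Ind w j := w1 j le_rfl
    have hA : ∀ i : Fin n, m + 1 ≤ i.val → Ind A i := by
      intro i hi x ω
      refine propext (exists_congr fun t => and_congr_right fun ht => and_congr_right fun hj => ?_)
      rw [hdep t ht i fun h => ?_]
      have : i.val ≤ m := (hj ▸ htop t ht i h : i ≤ j)
      omega
    refine ⟨fun x => w x * rho A j x, fun x => mul_nonneg (w0 x) (rho_bd A j x).1,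
      fun i hi x ω => ?_, fun S f f0 f1 => ?_, (sum_rho hwj A).trans w3, ?_⟩
    · simp only [w1 i (by omega) _ _, rho_ind A j (hA i hi) _ _]
    · have hf : 0 ≤ ∑ x, f x := sum_nonneg fun x _ => f0 x
      by_cases hj : j ∈ S
      · have : (S.filter fun i => i.val < m + 1) = insert j (S.filter fun i => i.val < m) := by
          ext i
          simp only [mem_filter, mem_insert, Fin.ext_iff, j]
          constructor
          · rintro ⟨h1, h2⟩
            by_cases h : i.val = m
            · exact Or.inl h
            · exact Or.inr ⟨h1, by omega⟩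
          · rintro (h | ⟨h1, h2⟩)
            · exact ⟨(Fin.ext h : i = j) ▸ hj, by omega⟩
            · exact ⟨h1, by omega⟩
        rw [this, card_insert_of_notMem (by simp [j]), pow_succ', mul_assoc]
        refine le_trans ?_ (mul_le_mul_of_nonneg_left (w2 S f f0 f1) (by norm_num))
        rw [mul_sum]
        refine sum_le_sum fun x _ => ?_
        nlinarith [mul_nonneg (w0 x) (f0 x), (rho_bd A j x).2]
      · have h1 := sum_rho (g := fun x => w x * f x) (j := j)
          (fun x ω => by simp only [hwj _ _, f1 j hj _ _]) A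
        calc _ = ∑ x, w x * f x * rho A j x := sum_congr rfl fun x _ => by ring
          _ ≤ _ := h1.le.trans (w2 S f f0 f1)
          _ ≤ _ := by
            gcongr
            · norm_num
            · omega
    · have h1 : ∀ x, ind (∃ t ∈ T, (top t).val < m + 1 ∧ B t x) ≤
          ind (∃ t ∈ T, (top t).val < m ∧ B t x) + ind (A x) := by
        intro x
        by_cases h : ∃ t ∈ T, (top t).val < m + 1 ∧ B t x
        · rw [ind_pos h]
          obtain ⟨t, ht, h2, h3⟩ := h
          by_cases h4 : (top t).val < m
          · rw [ind_pos ⟨t, ht, h4, h3⟩]; linarith [ind_nonneg (A x)]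
          · rw [ind_pos (P := A x) ⟨t, ht, Fin.ext (by simp only [j]; omega), h3⟩]
            linarith [ind_nonneg (∃ t ∈ T, (top t).val < m ∧ B t x)]
        · rw [ind_neg h]
          exact add_nonneg (ind_nonneg _) (ind_nonneg _)
      have h2 := sum_rho (g := fun x => w x * ind (∃ t ∈ T, (top t).val < m ∧ B t x)) (j := j)
        (fun x ω => by
          simp only [hwj _ _]
          congr 2
          refine propext (exists_congr fun t => and_congr_right fun ht =>
            and_congr_right fun hj => ?_)
          rw [hdep t ht j fun h => ?_]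
          have : m ≤ (top t).val := htop t ht j h
          omega) A
      have h3 := sum_rho_loss hwj w0 A
      have h4 : ∀ x, al A j x ≤ ∑ t ∈ T, if top t = j then al (B t) (top t) x else 0 := by
        intro x
        have : ∀ t, (if top t = j then al (B t) (top t) x else 0) =
            (∑ ω, if top t = j then ind (B t (update x j ω)) else 0) / Fintype.card Ω := by
          intro t
          split_ifs with h
          · rw [h, al]
          · simp
        simp only [this]
        rw [← sum_div, sum_comm, al]
        gcongr with ω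
        by_cases h : A (update x j ω)
        · rw [ind_pos h]
          obtain ⟨t, ht, h2, h3⟩ := h
          refine le_trans ?_ (single_le_sum
            (f := fun t => if top t = j then ind (B t (update x j ω)) else 0) (fun t _ => ?_) ht)
          · simp [h2, ind_pos h3]
          · split_ifs
            · exact ind_nonneg _
            · rfl
        · rw [ind_neg h]
          refine sum_nonneg fun t _ => ?_
          split_ifs
          · exact ind_nonneg _
          · rfl
      have h5 : ∑ x, w x * al A j x ^ 2 ≤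
          ∑ t ∈ T, ∑ t' ∈ T, if top t = j ∧ top t' = j then loss B J top t t' else 0 := by
        calc _ ≤ ∑ x, w x * ∑ t ∈ T, ∑ t' ∈ T, (if top t = j then al (B t) (top t) x else 0) *
              (if top t' = j then al (B t') (top t') x else 0) := by
              refine sum_le_sum fun x _ => mul_le_mul_of_nonneg_left ?_ (w0 x)
              rw [← sum_mul_sum, ← sq]
              exact pow_le_pow_left₀ (al_nonneg _ _ _) (h4 x) 2
          _ ≤ _ := by
            simp only [mul_sum]
            rw [sum_comm]
            refine sum_le_sum fun t ht => ?_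
            rw [sum_comm]
            refine sum_le_sum fun t' ht' => ?_
            by_cases h : top t = j ∧ top t' = j
            · simp only [if_pos h, if_pos h.1, if_pos h.2]
              refine (w2 (J t ∪ J t') _ (fun x => mul_nonneg (al_nonneg _ _ _) (al_nonneg _ _ _))
                fun i hi x ω => ?_).trans ?_
              · rw [mem_union, not_or] at hi
                simp only [al_ind _ _ (Or.inr (hdep t ht i hi.1)) _ _,
                  al_ind _ _ (Or.inr (hdep t' ht' i hi.2)) _ _]
              · unfold loss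
                gcongr
                · exact sum_nonneg fun x _ => mul_nonneg (al_nonneg _ _ _) (al_nonneg _ _ _)
                · norm_num
                · exact filter_subset _ _
            · rw [if_neg h]
              rcases not_and_or.1 h with h | h <;> simp [h]
      calc _ ≤ ∑ x, w x * rho A j x * (ind (∃ t ∈ T, (top t).val < m ∧ B t x) + ind (A x)) :=
            sum_le_sum fun x _ => mul_le_mul_of_nonneg_left (h1 x)
              (mul_nonneg (w0 x) (rho_bd A j x).1)
        _ = ∑ x, w x * ind (∃ t ∈ T, (top t).val < m ∧ B t x) * rho A j x +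
            ∑ x, w x * rho A j x * ind (A x) := by
          rw [← sum_add_distrib]
          exact sum_congr rfl fun x _ => by ring
        _ ≤ _ := add_le_add (h2.le.trans w4) (h3.trans (mul_le_mul_of_nonneg_left h5 (by norm_num)))
        _ = _ := by
          simp only [← mul_add, ← sum_add_distrib]
          congr 1
          refine sum_congr rfl fun t _ => sum_congr rfl fun t' _ => ?_
          simp only [Fin.ext_iff, j]
          split_ifs <;> first | omega | simp

theorem distortion (T : Finset τ) (B : τ → (Fin n → Ω) → Prop) (J : τ → Finset (Fin n))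
    (top : τ → Fin n) (hdep : ∀ t ∈ T, ∀ j ∉ J t, Ind (B t) j)
    (htop : ∀ t ∈ T, ∀ j ∈ J t, j ≤ top t)
    (h : 6 * ∑ t ∈ T, ∑ t' ∈ T, (if top t = top t' then loss B J top t t' else 0) <
      Fintype.card (Fin n → Ω)) : ∃ x, ∀ t ∈ T, ¬ B t x := by
  obtain ⟨w, -, -, -, w3, w4⟩ := dist_aux T B J top hdep htop n le_rfl
  by_contra hcon
  push Not at hcon
  have : ∀ x, ind (∃ t ∈ T, B t x) = 1 := fun x => ind_pos (hcon x)
  simp only [Fin.is_lt, and_true, true_and, this, mul_one] at w4
  linarith

end Pool.Agent.P.MP_42fc1a_nt
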