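import Pool.Agent.P.MP_42fc1a_nt.Weights
import Pool.Agent.P.MP_42fc1a_nt.Dist

/-! Bounded sums of powers of two avoid one residue class modulo each prime. -/

set_option autoImplicit false
set_option linter.unusedSectionVars false

namespace Pool.Agent.P.MP_42fc1a_nt

open Finset Function
open ArithmeticFunction (cardFactors cardFactors_apply)

section setup

variable {G : Type} [CommGroup G] [Fintype G] {n k : ℕ}

/-- the combination of the coordinates with exponents `c` -/
def comb (c : Fin n → ℕ) : (Fin n → G) →* G where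
  toFun x := ∏ j, x j ^ c j
  map_one' := by simp
  map_mul' x y := by simp [mul_pow, prod_mul_distrib]

/-- replace coordinate `j` by the first extra coordinate -/
def upd1 (j : Fin n) : (Fin n → G) × G × G →* (Fin n → G) where
  toFun z := update z.1 j z.2.1
  map_one' := by simp
  map_mul' x y := by simp [update_mul]

/-- replace coordinate `j` by the second extra coordinate -/
def upd2 (j : Fin n) : (Fin n → G) × G × G →* (Fin n → G) where
  toFun z := update z.1 j z.2.2
  map_one' := by simp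
  map_mul' x y := by simp [update_mul]

/-- the bad event modulo `p` -/
def Bad {p : ℕ} (c : Fin n → ℕ) (π : G →* (ZMod p)ˣ) (r : ZMod p) (x : Fin n → Fin k → G) : Prop :=
  ∑ i, (π (comb c fun j => x j i) : ZMod p) = r

/-- regrouping of coordinates -/
def regroup : (Fin n → Fin k → G) × (Fin k → G) × (Fin k → G) ≃ (Fin k → (Fin n → G) × G × G) where
  toFun z i := (fun j => z.1 j i, z.2.1 i, z.2.2 i)
  invFun y := (fun j i => (y i).1 j, fun i => (y i).2.1, fun i => (y i).2.2)
  left_inv _ := rfl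
  right_inv _ := rfl

theorem al_al {p q : ℕ} (c : Fin n → ℕ) (π : G →* (ZMod p)ˣ) (π' : G →* (ZMod q)ˣ) (r : ZMod p)
    (r' : ZMod q) (j : Fin n) :
    ∑ x : Fin n → Fin k → G, al (Bad c π r) j x * al (Bad c π' r') j x =
      Fintype.card (Fin n → Fin k → G) *
        pr2 (π.comp ((comb c).comp (upd1 j))) (π'.comp ((comb c).comp (upd2 j))) k r r' := by
  have h1 : (Fintype.card ((Fin n → G) × G × G) : ℝ) ^ k =
      Fintype.card (Fin n → Fin k → G) * (Fintype.card (Fin k → G) * Fintype.card (Fin k → G)) := by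
    have := Fintype.card_congr (regroup (G := G) (n := n) (k := k))
    rw [Fintype.card_prod, Fintype.card_prod, Fintype.card_fun (α := Fin k) (β := _ × _),
      Fintype.card_fin] at this
    exact_mod_cast this.symm
  have h2 : (Fintype.card (Fin n → Fin k → G) : ℝ) ≠ 0 := by exact_mod_cast Fintype.card_ne_zero
  have h3 : ∀ (x : Fin n → Fin k → G) (ω : Fin k → G) (i : Fin k),
      (fun j' => update x j ω j' i) = update (fun j' => x j' i) j (ω i) := by
    intro x ω i
    funext j'
    exact apply_update (fun _ (f : Fin k → G) => f i) x j ω j'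
  unfold pr2
  rw [h1, ← div_div, ← mul_div_assoc, mul_div_cancel₀ _ h2, ← Equiv.sum_comp regroup,
    Fintype.sum_prod_type, sum_div]
  refine sum_congr rfl fun x _ => ?_
  rw [al, al, div_mul_div_comm, sum_mul_sum, Fintype.sum_prod_type]
  congr 1
  refine sum_congr rfl fun ω _ => sum_congr rfl fun ω' _ => ?_
  simp only [ind, Bad, h3]
  congr

theorem bad_ind {p : ℕ} (c : Fin n → ℕ) (π : G →* (ZMod p)ˣ) (r : ZMod p) {j : Fin n}
    (h : ∀ g, π g ^ c j = 1) : Ind (Bad (k := k) c π r) j := by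
  intro x ω
  unfold Bad
  congr 2
  funext i
  congr 1
  simp only [comb, MonoidHom.coe_mk, OneHom.coe_mk, map_prod, map_pow]
  refine prod_congr rfl fun j' _ => ?_
  by_cases hj : j' = j
  · rw [hj, h, h]
  · rw [update_of_ne hj]

theorem range_comb {H K : Type*} [Group H] [Group K] (c : Fin n → ℕ)
    (hc : (Nat.card G).Coprime (∑ j, c j)) (π : G →* H) (u : K →* (Fin n → G))
    (hu : ∀ g : G, ∃ z, u z = fun _ => g) : (π.comp ((comb c).comp u)).range = π.range := by
  ext h
  constructor
  · rintro ⟨z, rfl⟩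
    exact ⟨_, rfl⟩
  · rintro ⟨g, rfl⟩
    obtain ⟨g', rfl⟩ := hc.pow_left_bijective.2 g
    obtain ⟨z, hz⟩ := hu g'
    exact ⟨z, by simp [hz, comb, prod_pow_eq_pow_sum]⟩

end setup

/-- the exponential map from the integers modulo `Q` -/
def expHom {H : Type*} [Group H] (Q : ℕ) [NeZero Q] (γ : H) (h : γ ^ Q = 1) :
    Multiplicative (ZMod Q) →* H :=
  MonoidHom.mk' (fun a => γ ^ a.toAdd.val) fun a b => by
    rw [toAdd_mul, ZMod.val_add, ← pow_eq_pow_mod _ h, pow_add]

theorem expHom_natCast {H : Type*} [Group H] (Q : ℕ) [NeZero Q] (γ : H) (h : γ ^ Q = 1) (a : ℕ) :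
    expHom Q γ h (Multiplicative.ofAdd (a : ZMod Q)) = γ ^ a := by
  simp [expHom, ← pow_eq_pow_mod _ h]

theorem card_range_expHom {H : Type*} [Group H] (Q : ℕ) [NeZero Q] (γ : H) (h : γ ^ Q = 1) :
    Nat.card (expHom Q γ h).range = orderOf γ := by
  suffices h1 : (expHom Q γ h).range = Subgroup.zpowers γ by rw [h1, Nat.card_zpowers]
  refine le_antisymm ?_ ?_
  · rintro _ ⟨a, rfl⟩
    exact Subgroup.npow_mem_zpowers _ _
  · rw [Subgroup.zpowers_le]
    exact ⟨_, (expHom_natCast Q γ h 1).trans (pow_one _)⟩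

/-- the exponents projecting to the smooth part and to the Sylow parts -/
def cexp (y Q j : ℕ) : ℕ :=
  if j = 0 then ∏ l ∈ Q.primeFactors.filter (y < ·), l ^ Q.factorization l
  else if j.Prime ∧ y < j ∧ j ∣ Q then Q / j ^ Q.factorization j else 0

theorem not_dvd_cexp {y Q l : ℕ} (hQ : Q ≠ 0) (hl : l.Prime) (hy : y < l) (h : l ∣ Q) :
    ¬ l ∣ cexp y Q l := by
  rw [cexp, if_neg hl.ne_zero, if_pos ⟨hl, hy, h⟩]
  exact Nat.not_dvd_ordCompl hl hQ

theorem dvd_cexp {y Q l e : ℕ} (he : e ∣ Q) (h0 : l ≠ 0) (h : ¬ (l.Prime ∧ y < l ∧ l ∣ e)) :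
    e ∣ cexp y Q l := by
  rw [cexp, if_neg h0]
  split_ifs with h1
  · exact Nat.dvd_ordCompl_of_dvd_not_dvd he fun h2 => h ⟨h1.1, h1.2.1, h2⟩
  · exact dvd_zero _

theorem coprime_cexp (y : ℕ) {Q : ℕ} (hQ : Q ≠ 0) :
    Q.Coprime (∑ j : Fin (Q + 1), cexp y Q j) := by
  refine Nat.coprime_of_dvd fun q hq h1 h2 => ?_
  have hqQ : q < Q + 1 := Nat.lt_succ_of_le (Nat.le_of_dvd (Nat.pos_of_ne_zero hQ) h1)
  by_cases hy : y < q
  · rw [← add_sum_erase _ _ (mem_univ ⟨q, hqQ⟩), Nat.dvd_add_left] at h2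
    · exact not_dvd_cexp hQ hq hy h1 h2
    · refine dvd_sum fun j hj => ?_
      by_cases h0 : j.val = 0
      · rw [h0, cexp, if_pos rfl]
        refine (dvd_pow_self q (hq.factorization_pos_of_dvd hQ h1).ne').trans
          (dvd_prod_of_mem (fun l => l ^ Q.factorization l) ?_)
        exact mem_filter.2 ⟨Nat.mem_primeFactors.2 ⟨hq, h1, hQ⟩, hy⟩
      · refine dvd_cexp h1 h0 fun h => (mem_erase.1 hj).1 (Fin.ext ?_)
        exact (Nat.prime_dvd_prime_iff_eq h.1 hq).1 h.2.2
  · rw [← add_sum_erase _ _ (mem_univ 0), Nat.dvd_add_left] at h2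
    · rw [Fin.val_zero, cexp, if_pos rfl, hq.prime.dvd_finsetProd_iff] at h2
      obtain ⟨l, hl, h3⟩ := h2
      obtain ⟨h4, h5⟩ := mem_filter.1 hl
      have := (Nat.prime_dvd_prime_iff_eq hq (Nat.prime_of_mem_primeFactors h4)).1
        (hq.dvd_of_dvd_pow h3)
      omega
    · refine dvd_sum fun j hj => dvd_cexp h1 (fun h => (mem_erase.1 hj).1 (Fin.ext h)) fun h => ?_
      have := (Nat.prime_dvd_prime_iff_eq h.1 hq).1 h.2.2
      omega

theorem small_prime {D h p : ℕ} (hD : 0 < D) (hp : p.Prime) (h2 : p ≠ 2) (he : oe D p ≤ h) :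
    p ≤ 2 ^ (D * h) := by
  have h0 : 1 < 2 ^ (D * oe D p) := Nat.one_lt_two_pow (Nat.mul_pos hD (oe_pos D hp h2)).ne'
  have h1 : p ∣ 2 ^ (D * oe D p) - 1 := by
    rw [← ZMod.natCast_eq_zero_iff, Nat.cast_sub h0.le]
    simp [pow_mul, oe, pow_orderOf_eq_one]
  have h3 : 2 ^ (D * oe D p) ≤ 2 ^ (D * h) := by gcongr; norm_num
  have := Nat.le_of_dvd (by omega) h1
  omega

theorem avoid : ∃ D k : ℕ, 0 < D ∧ ∀ P : Finset ℕ, (∀ p ∈ P, p.Prime ∧ p ≠ 2 ∧ 1 < oe D p) →
    ∀ r : ℤ, ∃ a : Fin k → ℕ, (∀ i, 0 < a i) ∧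
      ∀ p ∈ P, ∑ i, ((2 : ZMod p) ^ D) ^ a i ≠ r := by
  obtain ⟨h0, H0⟩ := exists_pack
  obtain ⟨y, D, H, hD, HS⟩ := sums_small
  obtain ⟨H1, hH1⟩ := exists_nat_ge (2 * h0)
  obtain ⟨h1, ha1, ha2, ha3⟩ : ∃ h1 : ℕ, H ≤ h1 ∧ 2 * h0 ≤ h1 ∧ 8192 ≤ h1 :=
    ⟨H + H1 + 8192, by omega, hH1.trans (by exact_mod_cast (by omega)), by omega⟩
  obtain ⟨k, hk⟩ := H0 (2 ^ (D * h1 ^ 2) * 2 ^ (D * h1 ^ 2))
  have hD0 := Nat.pos_of_ne_zero hD.1
  refine ⟨D, k, hD0, fun P hP r => ?_⟩
  have hS := HS h1 ha1 P hP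
  obtain ⟨Q, hQ, hQ'⟩ : ∃ Q : ℕ, Q ≠ 0 ∧ ∀ p ∈ P, oe D p ∣ Q :=
    ⟨∏ p ∈ P, oe D p, prod_ne_zero_iff.2 fun p hp => by have := (hP p hp).2.2; omega,
      fun p hp => dvd_prod_of_mem _ hp⟩
  have : NeZero Q := ⟨hQ⟩
  have hγ : ∀ p : P, ∃ γ : (ZMod p)ˣ, (γ : ZMod p) = 2 ^ D := fun p =>
    ⟨ZMod.unitOfCoprime 2 ((Nat.coprime_primes Nat.prime_two (hP p p.2).1).2
      (hP p p.2).2.1.symm) ^ D, by simp⟩
  choose γ hγ using hγ
  have hord : ∀ p : P, orderOf (γ p) = oe D p := fun p => by rw [← orderOf_units, hγ, oe]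
  have hγQ : ∀ p : P, γ p ^ Q = 1 := fun p =>
    orderOf_dvd_iff_pow_eq_one.1 (hord p ▸ hQ' p p.2)
  let π : ∀ p : P, Multiplicative (ZMod Q) →* (ZMod p)ˣ := fun p => expHom Q (γ p) (hγQ p)
  let c : Fin (Q + 1) → ℕ := fun j => cexp y Q j
  have he0 : ∀ p : P, oe D p ≠ 0 := fun p => by have := (hP p p.2).2.2; omega
  have htp : ∀ p : P, tp y (oe D p) < Q + 1 := by
    intro p
    by_cases h : tp y (oe D p) = 0
    · omega
    · exact Nat.lt_succ_of_le (Nat.le_of_dvd (Nat.pos_of_ne_zero hQ)
        ((tp_spec h).2.1.trans (hQ' p p.2)))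
  let J : P → Finset (Fin (Q + 1)) := fun p =>
    univ.filter fun j => j.val = 0 ∨ (j.val.Prime ∧ y < j.val ∧ j.val ∣ oe D p)
  let top : P → Fin (Q + 1) := fun p => ⟨_, htp p⟩
  have hJ : ∀ p : P, (J p).card ≤ cardFactors (oe D p) + 1 := by
    intro p
    refine (card_le_card_of_injOn Fin.val (t := insert 0 (oe D p).primeFactors) (fun j hj => ?_)
      Fin.val_injective.injOn).trans ((card_insert_le _ _).trans ?_)
    · rcases (mem_filter.1 hj).2 with h | h
      · simp [h]
      · simp [h.1, h.2.2, he0 p]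
    · rw [cardFactors_apply]
      exact Nat.succ_le_succ (List.toFinset_card_le _)
  have hc : (Nat.card (Multiplicative (ZMod Q))).Coprime (∑ j, c j) := by
    simpa using coprime_cexp y hQ
  have hr1 : ∀ (p : P) j, Nat.card ((π p).comp ((comb c).comp (upd1 j))).range = oe D p := by
    intro p j
    rw [range_comb c hc _ _ fun g => ⟨(fun _ => g, g, g), by simp [upd1]⟩, card_range_expHom, hord]
  have hr2 : ∀ (p : P) j, Nat.card ((π p).comp ((comb c).comp (upd2 j))).range = oe D p := by
    intro p j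
    rw [range_comb c hc _ _ fun g => ⟨(fun _ => g, g, g), by simp [upd2]⟩, card_range_expHom, hord]
  have hB : ∀ p : P, oe D p ≤ h1 ^ 2 → (p : ℕ) ≤ 2 ^ (D * h1 ^ 2) := fun p =>
    small_prime hD0 (hP p p.2).1 (hP p p.2).2.1
  obtain ⟨x, hx⟩ := distortion (Ω := Fin k → Multiplicative (ZMod Q)) univ
    (fun p : P => Bad c (π p) (r : ZMod p)) J top (fun p _ j hj => bad_ind _ _ _ fun g => by
      simp only [J, mem_filter, mem_univ, true_and, not_or] at hj
      obtain ⟨w, hw⟩ := dvd_cexp (hQ' p p.2) hj.1 hj.2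
      simp only [π, c, expHom, MonoidHom.mk'_apply]
      rw [hw, ← hord, ← pow_mul, mul_left_comm, pow_mul, pow_orderOf_eq_one, one_pow])
    (fun p _ j hj => by
      rcases (mem_filter.1 hj).2 with h | h
      · exact h.le.trans (Nat.zero_le _)
      · exact le_tp (he0 p) h.1 h.2.2 h.2.1)
    (by
      set X : ℝ := (Fintype.card (Fin (Q + 1) → Fin k → Multiplicative (ZMod Q)) : ℝ) with hX
      have hX0 : 0 < X := by rw [hX]; exact_mod_cast Fintype.card_pos
      have key : ∀ p p' : P, (if top p = top p' then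
          loss (fun p : P => Bad (k := k) c (π p) (r : ZMod p)) J top p p' else 0) ≤
          X * ((if tp y (oe D p) = tp y (oe D p') then aw D h1 p * aw D h1 p' else 0) +
            if p = p' then aw D h1 p / (max 1 (tp y (oe D p)) : ℕ) else 0) := by
        intro p p'
        have : Fact (p : ℕ).Prime := ⟨(hP p p.2).1⟩
        have : Fact (p' : ℕ).Prime := ⟨(hP p' p'.2).1⟩
        have a1 := aw_nonneg D h1 p
        have a2 := aw_nonneg D h1 p'
        by_cases ht : top p = top p'
        · rw [if_pos ht, if_pos (congrArg Fin.val ht), loss, ← ht, al_al, ← hX, mul_left_comm]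
          refine mul_le_mul_of_nonneg_left ?_ hX0.le
          by_cases hpp : p = p'
          · subst hpp
            rw [if_pos rfl, union_self]
            refine le_add_of_nonneg_of_le (by positivity) ?_
            have a3 := diag_bound hk ((π p).comp ((comb c).comp (upd1 (top p))))
              ((π p).comp ((comb c).comp (upd2 (top p)))) ha2 ha3
              (by rw [hr2]; exact (hP p p.2).2.2) (by rw [hr2]; exact hB p)
              ((MonoidHom.inr _ _).comp (MonoidHom.inl _ _)) (fun z => by simp [upd2])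
              (l := max 1 (tp y (oe D p))) (by
                refine max_le Nat.card_pos ?_
                by_cases h : tp y (oe D p) = 0
                · omega
                obtain ⟨b1, b2, b3⟩ := tp_spec h
                refine Nat.le_of_dvd Nat.card_pos (dvd_trans ?_
                  (Subgroup.orderOf_dvd_natCard _ ⟨Multiplicative.ofAdd ((1 : ℕ) : ZMod Q), rfl⟩))
                have b4 : (((π p).comp ((comb c).comp (upd1 (top p)))).comp
                    ((MonoidHom.inr _ _).comp (MonoidHom.inl _ _)))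
                    (Multiplicative.ofAdd ((1 : ℕ) : ZMod Q)) = γ p ^ c (top p) := by
                  have : comb c (update 1 (top p) (Multiplicative.ofAdd ((1 : ℕ) : ZMod Q))) =
                      Multiplicative.ofAdd ((1 : ℕ) : ZMod Q) ^ c (top p) := by
                    simp only [comb, MonoidHom.coe_mk, OneHom.coe_mk]
                    rw [prod_eq_single (top p)]
                    · simp
                    · intro b _ hb
                      simp [update_of_ne hb]
                    · simp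
                  change π p (comb c (update 1 (top p)
                    (Multiplicative.ofAdd ((1 : ℕ) : ZMod Q)))) = _
                  rw [this, map_pow, expHom_natCast, pow_one]
                rw [b4]
                refine (b1.dvd_mul.1 (b2.trans ?_)).resolve_left
                  (not_dvd_cexp hQ b1 b3 (b2.trans (hQ' p p.2)))
                refine (hord p).symm.dvd.trans (orderOf_dvd_iff_pow_eq_one.2 ?_)
                rw [pow_mul]
                exact pow_orderOf_eq_one _) r r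
            rw [hr2, ← le_div_iff₀' (by positivity)] at a3
            rw [aw, mul_div_assoc]
            refine le_trans (mul_le_mul_of_nonneg_left a3 (by positivity)) ?_
            have := wt_nonneg h1 p (oe D p)
            gcongr
            · norm_num
            · exact hJ p
          · rw [if_neg hpp, add_zero]
            have a3 := pair_bound hk (fun h => hpp (Subtype.ext h))
              ((π p).comp ((comb c).comp (upd1 (top p))))
              ((π p').comp ((comb c).comp (upd2 (top p)))) ha2 ha3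
              (by rw [hr1]; exact (hP p p.2).2.2) (by rw [hr2]; exact (hP p' p'.2).2.2)
              (by rw [hr1]; exact hB p) (by rw [hr2]; exact hB p') r r
            rw [hr1, hr2] at a3
            refine le_trans (mul_le_mul_of_nonneg_left a3 (by positivity)) ?_
            rw [aw, aw, mul_mul_mul_comm, ← pow_add]
            have := wt_nonneg h1 p (oe D p)
            have := wt_nonneg h1 p' (oe D p')
            gcongr
            · norm_num
            · exact (card_union_le _ _).trans (add_le_add (hJ p) (hJ p'))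
        · rw [if_neg ht]
          split_ifs <;> positivity
      calc _ ≤ 6 * ∑ p : P, ∑ p' : P, X *
            ((if tp y (oe D p) = tp y (oe D p') then aw D h1 p * aw D h1 p' else 0) +
            if p = p' then aw D h1 p / (max 1 (tp y (oe D p)) : ℕ) else 0) := by
            gcongr with p _ p' _
            exact key p p'
        _ = X * (6 * (∑ p ∈ P, ∑ p' ∈ P, (if tp y (oe D p) = tp y (oe D p') then
            aw D h1 p * aw D h1 p' else 0) +
            ∑ p ∈ P, aw D h1 p / (max 1 (tp y (oe D p)) : ℕ))) := by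
            simp only [← mul_sum, sum_add_distrib, sum_ite_eq, mem_univ, if_true]
            rw [mul_left_comm, ← sum_coe_sort P, ← sum_coe_sort P]
            congr 3
            exact sum_congr rfl fun p _ => sum_coe_sort P fun p' =>
              if tp y (oe D p) = tp y (oe D p') then aw D h1 p * aw D h1 p' else 0
        _ < X := mul_lt_of_lt_one_right hX0 hS)
  refine ⟨fun i => (comb c fun j => x j i).toAdd.val + Q, fun i => by positivity, fun p hp h => ?_⟩
  refine hx ⟨p, hp⟩ (mem_univ _) (Eq.trans (sum_congr rfl fun i _ => ?_) h)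
  rw [← hγ ⟨p, hp⟩, ← Units.val_pow_eq_pow_val, pow_add, hγQ, mul_one]
  rfl

theorem no_local : ∃ k : ℕ, ∀ q : ℕ, ∀ r : ℤ, ∃ pows : Multiset ℕ, pows.card ≤ k ∧
    ∀ p : ℕ, p.Prime → p ∣ q → q ≠ 0 → (((pows.map (2 ^ ·)).sum : ℕ) : ZMod p) ≠ r := by
  obtain ⟨D, k, hD, H⟩ := avoid
  refine ⟨2 * 2 ^ D + k, fun q r => ?_⟩
  have hM : (0 : ℤ) < 2 * (2 ^ D - 1) := by
    have : (1 : ℤ) < 2 ^ D := one_lt_pow₀ (by norm_num) hD.ne'
    linarith
  obtain ⟨m, hm⟩ := Int.eq_ofNat_of_zero_le (Int.emod_nonneg (r - 1 - k * 2 ^ D) hM.ne')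
  have hm1 : m ≤ 2 * 2 ^ D := by
    have := Int.emod_lt_of_pos (r - 1 - k * 2 ^ D) hM
    rw [hm] at this
    exact_mod_cast (by linarith : (m : ℤ) ≤ 2 * 2 ^ D)
  obtain ⟨a, ha, ha'⟩ := H (q.primeFactors.filter fun p => p ≠ 2 ∧ 1 < oe D p)
    (fun p hp => ⟨Nat.prime_of_mem_primeFactors (mem_filter.1 hp).1, (mem_filter.1 hp).2⟩) (r - m)
  refine ⟨Multiset.replicate m 0 + univ.val.map fun i => D * a i, by simpa using hm1,
    fun p hp hpq hq h => ?_⟩
  have h1 : (m : ZMod p) + ∑ i, ((2 : ZMod p) ^ D) ^ a i = r := by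
    rw [← h, Multiset.map_add, Multiset.sum_add, Multiset.map_map, ← Finset.sum_eq_multiset_sum]
    simp [pow_mul]
  by_cases h2 : p ≠ 2 ∧ 1 < oe D p
  · refine ha' p (mem_filter.2 ⟨Nat.mem_primeFactors.2 ⟨hp, hpq, hq⟩, h2⟩) ?_
    push_cast
    linear_combination h1
  · have : Fact p.Prime := ⟨hp⟩
    have h3 : (2 : ZMod p) = 0 ∨ (2 : ZMod p) ^ D = 1 := by
      by_cases h4 : p = 2
      · subst h4; exact Or.inl rfl
      · have := oe_pos D hp h4
        exact Or.inr (orderOf_eq_one_iff.1 (by change oe D p = 1; omega))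
    have h4 : ∀ i, ((2 : ZMod p) ^ D) ^ a i = 2 ^ D := by
      intro i
      rcases h3 with h3 | h3
      · rw [h3, zero_pow hD.ne', zero_pow (ha i).ne']
      · rw [h3, one_pow]
    have h5 : (2 * (2 ^ D - 1) : ZMod p) = 0 := by
      rcases h3 with h3 | h3 <;> simp [h3]
    have h6 := congrArg (Int.cast : ℤ → ZMod p) (Int.emod_def (r - 1 - k * 2 ^ D) (2 * (2 ^ D - 1)))
    rw [hm] at h6
    push_cast at h6
    simp only [h4, sum_const, card_univ, Fintype.card_fin, nsmul_eq_mul] at h1
    rw [h5, zero_mul, sub_zero] at h6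
    exact one_ne_zero (α := ZMod p) (by linear_combination h6 - h1)

end Pool.Agent.P.MP_42fc1a_nt
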