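import Pool.Agent.P.MP_42fc1a_nt.Four

/-! L2 flattening of invariant measures and the resulting exponential sum bound. -/

set_option autoImplicit false
set_option linter.unusedSectionVars false

namespace Pool.Agent.P.MP_42fc1a_nt

open Finset

variable {N : ℕ} [NeZero N] {Γ : Type*} [Group Γ] [Fintype Γ]

theorem sum_sub_left (g : ZMod N → ℝ) (y : ZMod N) : ∑ x, g (y - x) = ∑ x, g x :=
  Equiv.sum_comp (Equiv.subLeft y) g

theorem cv_nonneg {f g : ZMod N → ℝ} (hf : ∀ x, 0 ≤ f x) (hg : ∀ x, 0 ≤ g x) (x : ZMod N) :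
    0 ≤ cv f g x := sum_nonneg fun _ _ => mul_nonneg (hf _) (hg _)

theorem young {f g : ZMod N → ℝ} (hf : ∀ x, 0 ≤ f x) :
    ∑ x, cv f g x ^ 2 ≤ (∑ x, f x) ^ 2 * ∑ x, g x ^ 2 := by
  have h1 : ∀ x, cv f g x ^ 2 ≤ (∑ y, f y) * ∑ y, f y * g (y - x) ^ 2 := fun x =>
    sum_sq_le_sum_mul_sum_of_sq_le_mul _ (fun y _ => hf y)
      (fun y _ => mul_nonneg (hf y) (sq_nonneg _)) (fun y _ => le_of_eq (by ring))
  refine (sum_le_sum fun x _ => h1 x).trans (le_of_eq ?_)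
  rw [← mul_sum, sum_comm]
  simp only [← mul_sum, sum_sub_left (fun x => g x ^ 2)]
  rw [← sum_mul]
  ring

theorem cv_comm (f g : ZMod N → ℝ) (x : ZMod N) : cv f g x = cv g f (-x) := by
  unfold cv
  rw [← Equiv.sum_comp (Equiv.addRight x)]
  refine sum_congr rfl fun y _ => ?_
  simp [mul_comm]

theorem young' {f g : ZMod N → ℝ} (hg : ∀ x, 0 ≤ g x) :
    ∑ x, cv f g x ^ 2 ≤ (∑ x, g x) ^ 2 * ∑ x, f x ^ 2 := by
  refine le_trans (le_of_eq ?_) (young hg)
  rw [← Equiv.sum_comp (Equiv.neg _)]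
  refine sum_congr rfl fun y _ => ?_
  rw [cv_comm]
  simp

theorem flat_step (K : ℕ) (φ : Γ →* (ZMod N)ˣ) {M : ℝ} (hM : 1024 ≤ M)
    (hNC : ∀ c : ZMod N, M ^ (2 * FF K) * ∑ g, nuI ((φ g : ZMod N) - c) ≤ Fintype.card Γ)
    {f : ZMod N → ℝ} (h0 : ∀ x, 0 ≤ f x) (h1 : ∑ x, f x = 1)
    (hinv : ∀ g x, f (φ g * x) = f x)
    (hnc : ∀ c, M ^ (2 * FF K) * ∑ x, f x * nuI (x - c) ≤ 1)
    (hs1 : 1 ≤ (∑ x, f x ^ 2) * M ^ (2 * FF K * K)) (hs2 : M ^ FF K ≤ (∑ x, f x ^ 2) * N) :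
    M * ∑ x, cv f f x ^ 2 ≤ ∑ x, f x ^ 2 := by
  classical
  by_contra hcon
  rw [not_le] at hcon
  set σ := ∑ x, f x ^ 2 with hσ
  have hM0 : 0 < M := by linarith
  have hσ0 : 0 < σ := pos_of_mul_pos_left (lt_of_lt_of_le one_pos hs1) (by positivity)
  let A0 : Finset (ZMod N) := univ.filter fun x => f x ≤ M * σ ∧ σ ≤ M ^ 2 * f x
  let hi : ZMod N → ℝ := fun x => if M * σ < f x then f x else 0
  let lo : ZMod N → ℝ := fun x => if M ^ 2 * f x < σ then f x else 0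
  let mid : ZMod N → ℝ := fun x => if x ∈ A0 then f x else 0
  have hhi : ∀ x, 0 ≤ hi x := fun x => by simp only [hi]; split_ifs <;> simp [h0]
  have hlo : ∀ x, 0 ≤ lo x := fun x => by simp only [lo]; split_ifs <;> simp [h0]
  have hmid : ∀ x, 0 ≤ mid x := fun x => by simp only [mid]; split_ifs <;> simp [h0]
  have hcase : ∀ x, mid x = f x ∨ f x ≤ hi x + lo x := by
    intro x
    by_cases hx : x ∈ A0
    · left; simp [mid, hx]
    · right
      simp only [A0, mem_filter, mem_univ, true_and, not_and_or, not_le] at hx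
      rcases hx with hx | hx
      · have := hlo x
        simp only [hi, if_pos hx]; linarith
      · have := hhi x
        simp only [lo, if_pos hx]; linarith
  have hpt : ∀ x, cv f f x ≤ cv mid mid x + cv hi f x + cv lo f x + cv f hi x + cv f lo x := by
    intro x
    simp only [cv, ← sum_add_distrib]
    refine sum_le_sum fun y _ => ?_
    have a1 := mul_nonneg (hmid y) (hmid (y - x))
    have a2 := mul_nonneg (hhi y) (h0 (y - x))
    have a3 := mul_nonneg (hlo y) (h0 (y - x))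
    have a4 := mul_nonneg (h0 y) (hhi (y - x))
    have a5 := mul_nonneg (h0 y) (hlo (y - x))
    rcases hcase y with hy | hy
    · rcases hcase (y - x) with hz | hz
      · rw [hy, hz]; linarith
      · have := mul_le_mul_of_nonneg_left hz (h0 y)
        linarith
    · have := mul_le_mul_of_nonneg_right hy (h0 (y - x))
      linarith
  have b1 : M * ∑ x, hi x ≤ 1 := by
    refine le_of_mul_le_mul_left ?_ hσ0
    rw [mul_one, ← mul_assoc, mul_sum]
    refine sum_le_sum fun x _ => ?_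
    simp only [hi]
    split_ifs with h
    · nlinarith [h0 x]
    · simpa using sq_nonneg _
  have b1' : M ^ 2 * ((∑ x, hi x) ^ 2 * σ) ≤ σ := by
    have : (M * ∑ x, hi x) ^ 2 ≤ 1 :=
      pow_le_one₀ (mul_nonneg hM0.le (sum_nonneg fun x _ => hhi x)) b1
    nlinarith
  have b2 : M ^ 2 * ∑ x, lo x ^ 2 ≤ σ := by
    rw [← mul_one σ, ← h1, mul_sum, mul_sum]
    refine sum_le_sum fun x _ => ?_
    simp only [lo]
    split_ifs with h
    · nlinarith [h0 x]
    · simpa using mul_nonneg hσ0.le (h0 x)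
  have hM2 : 0 ≤ M ^ 2 := by positivity
  have c1 : M ^ 2 * ∑ x, cv hi f x ^ 2 ≤ σ := (mul_le_mul_of_nonneg_left (young hhi) hM2).trans b1'
  have c2 : M ^ 2 * ∑ x, cv f hi x ^ 2 ≤ σ := (mul_le_mul_of_nonneg_left (young' hhi) hM2).trans b1'
  have c3 : M ^ 2 * ∑ x, cv lo f x ^ 2 ≤ σ :=
    (mul_le_mul_of_nonneg_left (young' h0) hM2).trans (by rwa [h1, one_pow, one_mul])
  have c4 : M ^ 2 * ∑ x, cv f lo x ^ 2 ≤ σ :=
    (mul_le_mul_of_nonneg_left (young h0) hM2).trans (by rwa [h1, one_pow, one_mul])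
  set X := ∑ x, cv mid mid x ^ 2 with hX
  have hX0 : 0 ≤ X := sum_nonneg fun _ _ => sq_nonneg _
  have d1 : ∑ x, cv f f x ^ 2 ≤ 5 * (X + ∑ x, cv hi f x ^ 2 + ∑ x, cv lo f x ^ 2 +
      ∑ x, cv f hi x ^ 2 + ∑ x, cv f lo x ^ 2) := by
    simp only [hX, ← sum_add_distrib, mul_sum]
    refine sum_le_sum fun x _ => ?_
    refine (pow_le_pow_left₀ (cv_nonneg h0 h0 x) (hpt x) 2).trans ?_
    generalize cv mid mid x = a
    generalize cv hi f x = b
    generalize cv lo f x = c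
    generalize cv f hi x = d
    generalize cv f lo x = e
    nlinarith [sq_nonneg (a - b), sq_nonneg (a - c), sq_nonneg (a - d), sq_nonneg (a - e),
      sq_nonneg (b - c), sq_nonneg (b - d), sq_nonneg (b - e), sq_nonneg (c - d),
      sq_nonneg (c - e), sq_nonneg (d - e)]
  have d2 : σ ≤ M ^ 2 * X := by
    have e1 := mul_le_mul_of_nonneg_left d1 hM2
    have e2 := mul_lt_mul_of_pos_left hcon hM0
    have e3 : 25 * σ ≤ M * σ := by gcongr; linarith
    nlinarith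
  set a0 : ℝ := (A0.card : ℝ) with ha0
  have ha00 : 0 ≤ a0 := Nat.cast_nonneg _
  have hmid2 : ∀ x, mid x ≤ M * σ * if x ∈ A0 then 1 else 0 := by
    intro x
    simp only [mid]
    split_ifs with h
    · simpa using (mem_filter.1 h).2.1
    · simp
  have d3 : X ≤ (M * σ) ^ 4 * ∑ d, rr A0 d ^ 2 := by
    rw [mul_sum]
    refine sum_le_sum fun d _ => ?_
    have : cv mid mid d ≤ (M * σ) ^ 2 * rr A0 d := by
      calc _ ≤ ∑ y, (M * σ * if y ∈ A0 then 1 else 0) * (M * σ * if y - d ∈ A0 then 1 else 0) :=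
            sum_le_sum fun y _ => mul_le_mul (hmid2 _) (hmid2 _) (hmid _)
              ((hmid _).trans (hmid2 _))
        _ = _ := by
          rw [rr_eq, Finset.mul_sum A0]
          refine (sum_subset (subset_univ A0) ?_).symm.trans ?_
          · intro y _ hy
            rw [if_neg hy]; ring
          · refine Finset.sum_congr (s₁ := A0) rfl fun y hy => ?_
            rw [if_pos hy]; ring
    calc _ ≤ ((M * σ) ^ 2 * rr A0 d) ^ 2 := pow_le_pow_left₀ (cv_nonneg hmid hmid d) this 2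
      _ = _ := by ring
  have d4 : X ≤ (M * σ * a0) ^ 2 * σ := by
    refine (young hmid).trans ?_
    gcongr
    · exact sum_nonneg fun x _ => hmid x
    · refine (sum_le_sum fun x _ => hmid2 x).trans (le_of_eq ?_)
      rw [← mul_sum]
      simp [ha0]
    · refine sum_le_sum fun x _ => ?_
      simp only [mid]
      split_ifs <;> simp [sq_nonneg]
  have d5 : a0 * σ ≤ M ^ 2 := by
    calc a0 * σ = ∑ _x ∈ A0, σ := by simp [ha0]
      _ ≤ ∑ x ∈ A0, M ^ 2 * f x := sum_le_sum fun x hx => (mem_filter.1 hx).2.2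
      _ ≤ ∑ x, M ^ 2 * f x := sum_le_sum_of_subset_of_nonneg (subset_univ _)
          fun x _ _ => mul_nonneg hM2 (h0 x)
      _ = _ := by rw [← mul_sum, h1, mul_one]
  have d6 : 1 ≤ M ^ 2 * σ * a0 := by
    have : 1 * σ ≤ (M ^ 2 * σ * a0) ^ 2 * σ := by
      calc _ ≤ M ^ 2 * X := by rwa [one_mul]
        _ ≤ M ^ 2 * ((M * σ * a0) ^ 2 * σ) := by gcongr
        _ = _ := by ring
    exact (one_le_sq_iff₀ (by positivity)).1 (le_of_mul_le_mul_right this hσ0)
  have hE0 : 0 ≤ ∑ d, rr A0 d ^ 2 := sum_nonneg fun _ _ => sq_nonneg _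
  refine setflat K φ hM hNC A0 (fun g x => by simp [A0, hinv]) ?_ ?_ ?_ ?_ fun c => ?_
  · rw [← card_pos]
    by_contra hh
    have : a0 = 0 := by rw [ha0]; exact_mod_cast (by omega)
    rw [this] at d6
    linarith
  · have : 1 * σ ≤ (M ^ 6 * σ ^ 3 * ∑ d, rr A0 d ^ 2) * σ := by
      calc _ ≤ M ^ 2 * X := by rwa [one_mul]
        _ ≤ M ^ 2 * ((M * σ) ^ 4 * ∑ d, rr A0 d ^ 2) := by gcongr
        _ = _ := by ring
    have := le_of_mul_le_mul_right this hσ0
    calc a0 ^ 3 ≤ a0 ^ 3 * (M ^ 6 * σ ^ 3 * ∑ d, rr A0 d ^ 2) :=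
          le_mul_of_one_le_right (by positivity) this
      _ = (a0 * σ) ^ 3 * (M ^ 6 * ∑ d, rr A0 d ^ 2) := by ring
      _ ≤ (M ^ 2) ^ 3 * (M ^ 6 * ∑ d, rr A0 d ^ 2) := by gcongr
      _ = _ := by ring
  · calc a0 ≤ a0 * (σ * M ^ (2 * FF K * K)) := le_mul_of_one_le_right ha00 hs1
      _ = (a0 * σ) * M ^ (2 * FF K * K) := by ring
      _ ≤ _ := by gcongr
  · calc a0 * M ^ FF K ≤ a0 * (σ * N) := by gcongr
      _ = (a0 * σ) * N := by ring
      _ ≤ _ := by gcongr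
  · refine le_of_mul_le_mul_right ?_ hσ0
    calc _ = M ^ (2 * FF K) * ∑ x ∈ A0, σ * nuI (x - c) := by rw [← mul_sum]; ring
      _ ≤ M ^ (2 * FF K) * ∑ x ∈ A0, M ^ 2 * (f x * nuI (x - c)) := by
          refine mul_le_mul_of_nonneg_left (sum_le_sum fun x hx => ?_) (by positivity)
          rw [← mul_assoc]
          exact mul_le_mul_of_nonneg_right (mem_filter.1 hx).2.2 (nuI_nonneg _)
      _ ≤ M ^ (2 * FF K) * ∑ x, M ^ 2 * (f x * nuI (x - c)) := by
          gcongr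
          · exact fun x _ _ => mul_nonneg hM2 (mul_nonneg (h0 x) (nuI_nonneg _))
          · exact subset_univ _
      _ = M ^ 2 * (M ^ (2 * FF K) * ∑ x, f x * nuI (x - c)) := by rw [← mul_sum]; ring
      _ ≤ M ^ 2 * (M ^ 2 * σ * a0) := mul_le_mul_of_nonneg_left ((hnc c).trans d6) hM2
      _ = _ := by ring

/-- iterated self-correlation -/
noncomputable def it (φ : Γ →* (ZMod N)ˣ) : ℕ → ZMod N → ℝ
  | 0 => mu φ
  | j + 1 => cv (it φ j) (it φ j)

theorem it_nonneg (φ : Γ →* (ZMod N)ˣ) (j : ℕ) : ∀ x, 0 ≤ it φ j x := by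
  induction j with
  | zero => exact mu_nonneg φ
  | succ j ih => exact cv_nonneg ih ih

theorem it_sum (φ : Γ →* (ZMod N)ˣ) (j : ℕ) : ∑ x, it φ j x = 1 := by
  induction j with
  | zero => exact mu_sum φ
  | succ j ih =>
    simp only [it, cv]
    rw [sum_comm]
    simp only [← mul_sum, sum_sub_left, ih, mul_one]

theorem it_inv (φ : Γ →* (ZMod N)ˣ) (j : ℕ) (g : Γ) : ∀ x, it φ j (φ g * x) = it φ j x := by
  induction j with
  | zero => exact mu_inv φ g
  | succ j ih =>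
    intro x
    simp only [it, cv]
    rw [← Equiv.sum_comp (Units.mulLeft (φ g))]
    simp only [Units.mulLeft_apply, ← mul_sub, ih]

theorem it_nc (φ : Γ →* (ZMod N)ˣ) {h : ℝ}
    (hNC : ∀ c : ZMod N, h * ∑ g, nuI ((φ g : ZMod N) - c) ≤ Fintype.card Γ) (j : ℕ) :
    ∀ c, h * ∑ x, it φ j x * nuI (x - c) ≤ 1 := by
  induction j with
  | zero =>
    intro c
    have hG : (0 : ℝ) < Fintype.card Γ := by exact_mod_cast Fintype.card_pos
    rw [it, sum_mu' φ fun x => nuI (x - c), ← mul_div_assoc, div_le_one hG]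
    exact hNC c
  | succ j ih =>
    intro c
    have : ∑ x, it φ (j + 1) x * nuI (x - c) =
        ∑ z, it φ j z * ∑ y, it φ j y * nuI (y - (z + c)) := by
      simp only [it, cv, sum_mul, mul_sum]
      rw [sum_comm]
      conv_rhs => rw [sum_comm]
      refine sum_congr rfl fun y _ => ?_
      rw [← Equiv.sum_comp (Equiv.subLeft y)]
      refine sum_congr rfl fun z _ => ?_
      simp only [Equiv.subLeft_apply, sub_sub_cancel, sub_sub]
      ring
    rw [this, mul_sum, ← it_sum φ j]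
    refine sum_le_sum fun z _ => ?_
    rw [mul_left_comm]
    exact mul_le_of_le_one_right (it_nonneg φ j z) (ih _)

theorem it_ft (φ : Γ →* (ZMod N)ˣ) (j : ℕ) (ξ : ZMod N) :
    ‖ft (it φ j) ξ‖ = ‖ft (mu φ) ξ‖ ^ 2 ^ j := by
  induction j with
  | zero => simp [it]
  | succ j ih =>
    rw [it, ft_cv, Complex.norm_real, Real.norm_of_nonneg (by positivity), ih, ← pow_mul,
      ← pow_succ]

theorem it_sq (φ : Γ →* (ZMod N)ˣ) (j : ℕ) : ∑ x, it φ j x ^ 2 = Fk φ (2 ^ (j + 1)) := by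
  have hN : (N : ℝ) ≠ 0 := by exact_mod_cast NeZero.ne N
  unfold Fk
  rw [eq_div_iff hN, mul_comm, ← parseval]
  simp only [it_ft, ← pow_mul, ← pow_succ]

theorem Fk_zero (φ : Γ →* (ZMod N)ˣ) : Fk φ 0 = 1 := by
  have hN : (N : ℝ) ≠ 0 := by exact_mod_cast NeZero.ne N
  simp [Fk, ZMod.card, hN]

theorem it_le (K : ℕ) (φ : Γ →* (ZMod N)ˣ) {M : ℝ} (hM : 1024 ≤ M)
    (hNC : ∀ c : ZMod N, M ^ (2 * FF K) * ∑ g, nuI ((φ g : ZMod N) - c) ≤ Fintype.card Γ)
    (j : ℕ) : Fk φ (2 ^ (j + 1)) ≤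
      max (1 / M ^ j) (max (1 / M ^ (2 * FF K * K)) (M ^ FF K / N)) := by
  have hM0 : 0 < M := by linarith
  have hN : (0 : ℝ) < N := by exact_mod_cast NeZero.pos N
  induction j with
  | zero => exact le_max_of_le_left (by simpa [Fk_zero] using Fk_anti φ (Nat.zero_le 2))
  | succ j ih =>
    by_cases h : Fk φ (2 ^ (j + 1)) ≤ max (1 / M ^ (2 * FF K * K)) (M ^ FF K / N)
    · exact le_max_of_le_right ((Fk_anti φ (Nat.pow_le_pow_right two_pos (by omega))).trans h)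
    · have h1 := (le_max_iff.1 ih).resolve_right h
      rw [not_le, max_lt_iff, div_lt_iff₀ (by positivity), div_lt_iff₀ hN, ← it_sq] at h
      have h2 := flat_step K φ hM hNC (it_nonneg φ j) (it_sum φ j) (it_inv φ j) (it_nc φ hNC j)
        h.1.le h.2.le
      rw [it_sq φ j] at h2
      refine le_max_of_le_left ?_
      rw [← it_sq, pow_succ, ← div_div, le_div_iff₀ hM0, mul_comm]
      exact h2.trans h1

theorem ft_sq_le (φ : Γ →* (ZMod N)ˣ) {h : ℝ} (hh : 0 ≤ h)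
    (hNC : ∀ c : ZMod N, h * ∑ g, nuI ((φ g : ZMod N) - c) ≤ Fintype.card Γ)
    {f : ZMod N → ℝ} (hinv : ∀ g x, f (φ g * x) = f x) {ξ : ZMod N} (hξ : ξ ≠ 0) :
    h * ‖ft f ξ‖ ^ 2 ≤ N * ∑ x, f x ^ 2 := by
  have hG : (0 : ℝ) < Fintype.card Γ := by exact_mod_cast Fintype.card_pos
  refine le_of_mul_le_mul_left ?_ hG
  rw [← parseval]
  have h1 : (Fintype.card Γ : ℝ) * ‖ft f ξ‖ ^ 2 =
      ∑ η, (∑ g, if (φ g : ZMod N) * ξ = η then (1 : ℝ) else 0) * ‖ft f η‖ ^ 2 := by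
    simp only [sum_mul]
    rw [sum_comm]
    simp [ft_inv _ (hinv _)]
  rw [mul_left_comm, h1, mul_sum, mul_sum]
  refine sum_le_sum fun η _ => ?_
  rw [← mul_assoc]
  gcongr
  by_cases h2 : ∃ g0, (φ g0 : ZMod N) * ξ = η
  · obtain ⟨g0, rfl⟩ := h2
    refine le_trans ?_ (hNC (φ g0))
    gcongr with g
    split_ifs with h3
    · rw [nuI_of_not]
      intro hu
      rw [← sub_eq_zero, ← sub_mul, hu.mul_right_eq_zero] at h3
      exact hξ h3
    · exact nuI_nonneg _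
  · push Not at h2
    simp [h2]

theorem big_mod (K : ℕ) : ∃ (k0 : ℕ) (h0 : ℝ), ∀ (N : ℕ) [NeZero N] (Γ : Type) [Group Γ]
    [Fintype Γ] (φ : Γ →* (ZMod N)ˣ) (h : ℝ), h0 ≤ h →
    (∀ c : ZMod N, h * ∑ g, nuI ((φ g : ZMod N) - c) ≤ Fintype.card Γ) →
    Fk φ k0 ≤ 1 / N + 1 / h ^ K := by
  refine ⟨2 ^ (2 * FF K * K + 1) * (2 * K + 1), 1024 ^ (2 * FF K), fun N _ Γ _ _ φ h hh hNC => ?_⟩
  have hF : 2 * FF K ≠ 0 := by unfold FF; omega
  have hh0 : 0 ≤ h := le_trans (by positivity) hh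
  obtain ⟨M, hM0, rfl⟩ : ∃ M : ℝ, 0 ≤ M ∧ M ^ (2 * FF K) = h :=
    ⟨_, Real.rpow_nonneg hh0 _, Real.rpow_inv_natCast_pow hh0 hF⟩
  have hM : 1024 ≤ M := (pow_le_pow_iff_left₀ (by norm_num) hM0 hF).1 hh
  have hM1 : 0 < M := by linarith
  have hN : (0 : ℝ) < N := by exact_mod_cast NeZero.pos N
  have h1 := it_le K φ hM hNC (2 * FF K * K)
  rw [← max_assoc, max_self, le_max_iff] at h1
  rcases h1 with h1 | h1
  · rw [← pow_mul]
    exact ((Fk_anti φ (Nat.le_mul_of_pos_right _ (by omega))).trans h1).trans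
      (le_add_of_nonneg_left (by positivity))
  · refine Fk_le φ (by positivity) fun ξ hξ => ?_
    have h2 := ft_sq_le φ hh0 hNC (it_inv φ (2 * FF K * K)) hξ
    rw [it_sq, it_ft, ← pow_mul, ← pow_succ] at h2
    rw [le_div_iff₀' hN] at h1
    have h3 : ‖ft (mu φ) ξ‖ ^ 2 ^ (2 * FF K * K + 1) ≤ 1 / M ^ FF K := by
      rw [le_div_iff₀ (by positivity)]
      refine le_of_mul_le_mul_left ?_ (pow_pos hM1 (FF K))
      calc _ = M ^ (2 * FF K) * ‖ft (mu φ) ξ‖ ^ 2 ^ (2 * FF K * K + 1) := by ring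
        _ ≤ _ := by rw [mul_one]; exact h2.trans h1
    rw [pow_mul]
    calc _ ≤ (1 / M ^ FF K) ^ (2 * K + 1) := by gcongr
      _ ≤ (1 / M ^ FF K) ^ (2 * K) := by
        refine pow_le_pow_of_le_one (by positivity) ?_ (by omega)
        rw [div_le_one (by positivity)]
        exact one_le_pow₀ (by linarith)
      _ = _ := by rw [div_pow, one_pow, ← pow_mul, ← pow_mul]; congr 2; ring

theorem Fk_two (φ : Γ →* (ZMod N)ˣ) (hN : 1 < N) {h : ℝ} (hh : 0 < h)
    (hNC : ∀ c : ZMod N, h * ∑ g, nuI ((φ g : ZMod N) - c) ≤ Fintype.card Γ) :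
    Fk φ 2 ≤ 1 / h := by
  have : Fact (1 < N) := ⟨hN⟩
  have h1 := it_sq φ 0
  rw [zero_add, pow_one] at h1
  rw [← h1, le_div_iff₀' hh, mul_sum, ← it_sum φ 0]
  refine sum_le_sum fun c _ => ?_
  rw [sq, mul_left_comm]
  refine mul_le_of_le_one_right (it_nonneg φ 0 c) (le_trans ?_ (it_nc φ hNC 0 c))
  gcongr
  have := single_le_sum (f := fun x => it φ 0 x * nuI (x - c))
    (fun x _ => mul_nonneg (it_nonneg φ 0 x) (nuI_nonneg _)) (mem_univ c)
  simpa [nuI] using this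

end Pool.Agent.P.MP_42fc1a_nt
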