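import Pool.Agent.P.MP_42fc1a_nt.SetFlat

/-! Fourier analysis on `ZMod N` for measures pushed forward from a finite group. -/

set_option autoImplicit false
set_option linter.unusedSectionVars false

namespace Pool.Agent.P.MP_42fc1a_nt

open Finset

variable {N : ℕ} [NeZero N] {Γ : Type*} [Group Γ] [Fintype Γ]

/-- the Fourier transform -/
noncomputable def ft (f : ZMod N → ℝ) (ξ : ZMod N) : ℂ :=
  ∑ x, (f x : ℂ) * ZMod.stdAddChar (ξ * x)

/-- correlation -/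
noncomputable def cv (f g : ZMod N → ℝ) (x : ZMod N) : ℝ := ∑ y, f y * g (y - x)

/-- the push-forward of the uniform measure -/
noncomputable def mu (φ : Γ →* (ZMod N)ˣ) (x : ZMod N) : ℝ :=
  (∑ g, if (φ g : ZMod N) = x then 1 else 0) / Fintype.card Γ

/-- probability that a twisted sum takes a given value -/
noncomputable def pr (φ : Γ →* (ZMod N)ˣ) (k : ℕ) (u : Fin k → (ZMod N)ˣ) (n : ZMod N) : ℝ :=
  (∑ y : Fin k → Γ, if ∑ i, (u i : ZMod N) * φ (y i) = n then 1 else 0) / Fintype.card Γ ^ k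

/-- moments of the Fourier transform -/
noncomputable def Fk (φ : Γ →* (ZMod N)ˣ) (k : ℕ) : ℝ := (∑ ξ, ‖ft (mu φ) ξ‖ ^ k) / N

theorem orth (z : ZMod N) :
    ∑ ξ : ZMod N, ZMod.stdAddChar (ξ * z) = if z = 0 then (N : ℂ) else 0 := by
  rw [AddChar.sum_mulShift z (ZMod.isPrimitive_stdAddChar N)]
  split_ifs <;> simp

theorem sum_ft (f : ZMod N → ℝ) : ∑ ξ, ft f ξ = N * f 0 := by
  unfold ft
  rw [sum_comm]
  simp only [← mul_sum, orth]
  simp [mul_comm]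

theorem ft_cv (f : ZMod N → ℝ) (ξ : ZMod N) : ft (cv f f) ξ = ((‖ft f ξ‖ ^ 2 : ℝ) : ℂ) := by
  push_cast
  rw [← Complex.mul_conj']
  unfold ft cv
  push_cast
  rw [map_sum, sum_mul_sum]
  simp only [sum_mul]
  rw [sum_comm]
  refine sum_congr rfl fun y _ => ?_
  rw [← Equiv.sum_comp (Equiv.subLeft y)]
  refine sum_congr rfl fun z _ => ?_
  simp only [Equiv.subLeft_apply, sub_sub_cancel, map_mul, Complex.conj_ofReal]
  rw [← AddChar.map_neg_eq_conj, mul_sub, sub_eq_add_neg, AddChar.map_add_eq_mul]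
  ring

theorem parseval (f : ZMod N → ℝ) : ∑ ξ, ‖ft f ξ‖ ^ 2 = N * ∑ x, f x ^ 2 := by
  have h := sum_ft (cv f f)
  simp only [ft_cv] at h
  have h2 : cv f f 0 = ∑ x, f x ^ 2 := by simp [cv, sq]
  rw [h2] at h
  exact_mod_cast h

theorem sum_mu {R : Type*} [RCLike R] (φ : Γ →* (ZMod N)ˣ) (F : ZMod N → R) :
    ∑ x, (mu φ x : R) * F x = (∑ g, F (φ g)) / Fintype.card Γ := by
  unfold mu
  push_cast
  simp only [div_mul_eq_mul_div, ← sum_div, sum_mul]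
  rw [sum_comm]
  congr 1
  refine sum_congr rfl fun g _ => ?_
  rw [sum_eq_single (φ g : ZMod N)]
  · simp
  · intro b _ hb
    simp [hb.symm]
  · simp

theorem ft_mu (φ : Γ →* (ZMod N)ˣ) (ξ : ZMod N) :
    ft (mu φ) ξ = (∑ g, ZMod.stdAddChar (ξ * (φ g : ZMod N))) / Fintype.card Γ :=
  sum_mu (R := ℂ) φ fun x => ZMod.stdAddChar (ξ * x)

theorem sum_mu' (φ : Γ →* (ZMod N)ˣ) (F : ZMod N → ℝ) :
    ∑ x, mu φ x * F x = (∑ g, F (φ g)) / Fintype.card Γ :=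
  sum_mu (R := ℝ) φ F

theorem mu_nonneg (φ : Γ →* (ZMod N)ˣ) (x : ZMod N) : 0 ≤ mu φ x := by
  unfold mu
  refine div_nonneg (sum_nonneg fun g _ => ?_) (Nat.cast_nonneg _)
  split_ifs <;> norm_num

theorem mu_sum (φ : Γ →* (ZMod N)ˣ) : ∑ x, mu φ x = 1 := by
  have := sum_mu' φ fun _ => 1
  have hG : (Fintype.card Γ : ℝ) ≠ 0 := by exact_mod_cast Fintype.card_ne_zero
  simpa [hG] using this

theorem mu_inv (φ : Γ →* (ZMod N)ˣ) (g : Γ) (x : ZMod N) : mu φ (φ g * x) = mu φ x := by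
  unfold mu
  congr 1
  rw [← Equiv.sum_comp (Equiv.mulLeft g)]
  refine sum_congr rfl fun g' _ => ?_
  simp

theorem norm_ft_le {f : ZMod N → ℝ} (h0 : ∀ x, 0 ≤ f x) (h1 : ∑ x, f x = 1) (ξ : ZMod N) :
    ‖ft f ξ‖ ≤ 1 := by
  rw [← h1]
  refine (norm_sum_le _ _).trans (sum_le_sum fun x _ => ?_)
  simp [abs_of_nonneg (h0 x)]

theorem ft_zero {f : ZMod N → ℝ} (h1 : ∑ x, f x = 1) : ft f 0 = 1 := by
  unfold ft
  simp only [zero_mul, AddChar.map_zero_eq_one, mul_one]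
  exact_mod_cast h1

theorem ft_inv {f : ZMod N → ℝ} (u : (ZMod N)ˣ) (h : ∀ x, f (u * x) = f x) (ξ : ZMod N) :
    ft f (u * ξ) = ft f ξ := by
  unfold ft
  conv_rhs => rw [← Equiv.sum_comp (Units.mulLeft u)]
  refine sum_congr rfl fun x _ => ?_
  simp only [Units.mulLeft_apply, h]
  congr 2
  ring

theorem Fk_anti (φ : Γ →* (ZMod N)ˣ) {k l : ℕ} (h : k ≤ l) : Fk φ l ≤ Fk φ k := by
  unfold Fk
  gcongr ?_ / _
  exact sum_le_sum fun ξ _ =>
    pow_le_pow_of_le_one (norm_nonneg _) (norm_ft_le (mu_nonneg φ) (mu_sum φ) ξ) h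

theorem Fk_le (φ : Γ →* (ZMod N)ˣ) {k : ℕ} {b : ℝ} (hb : 0 ≤ b)
    (h : ∀ ξ, ξ ≠ 0 → ‖ft (mu φ) ξ‖ ^ k ≤ b) : Fk φ k ≤ 1 / N + b := by
  have hN : (0 : ℝ) < N := by exact_mod_cast NeZero.pos N
  unfold Fk
  rw [div_le_iff₀ hN]
  calc _ ≤ ∑ ξ : ZMod N, ((if ξ = 0 then (1 : ℝ) else 0) + b) := by
        refine sum_le_sum fun ξ _ => ?_
        split_ifs with h0
        · rw [h0, ft_zero (mu_sum φ)]; simpa using hb
        · simpa using h ξ h0
    _ = _ := by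
      rw [sum_add_distrib]
      simp [ZMod.card]
      field_simp

theorem pr_eq (φ : Γ →* (ZMod N)ˣ) (k : ℕ) (u : Fin k → (ZMod N)ˣ) (n : ZMod N) :
    (N : ℂ) * pr φ k u n =
      ∑ ξ, ZMod.stdAddChar (ξ * -n) * ∏ i, ft (mu φ) (u i * ξ) := by
  classical
  simp only [ft_mu, prod_div_distrib, prod_const, card_univ, Fintype.card_fin]
  simp only [Fintype.prod_sum, ← mul_div_assoc, ← sum_div, mul_sum]
  rw [sum_comm]
  unfold pr
  push_cast
  rw [← mul_div_assoc, mul_sum]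
  congr 1
  refine sum_congr rfl fun y _ => ?_
  have : ∀ ξ : ZMod N, ZMod.stdAddChar (ξ * -n) *
      ∏ i, ZMod.stdAddChar ((u i : ZMod N) * ξ * (φ (y i) : ZMod N)) =
      ZMod.stdAddChar (ξ * (∑ i, (u i : ZMod N) * φ (y i) - n)) := by
    intro ξ
    rw [sub_eq_add_neg, mul_add, AddChar.map_add_eq_mul, mul_comm, mul_sum]
    congr 1
    induction (univ : Finset (Fin k)) using Finset.induction_on with
    | empty => simp
    | insert a s ha ih =>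
      rw [prod_insert ha, sum_insert ha, AddChar.map_add_eq_mul, ih]
      congr 2
      ring
  simp only [this, orth, sub_eq_zero]
  split_ifs <;> simp

theorem prod_le_avg {k : ℕ} (hk : 0 < k) (a : Fin k → ℝ) (ha : ∀ i, 0 ≤ a i) :
    ∏ i, a i ≤ (∑ i, a i ^ k) / k := by
  have hk' : (k : ℝ) ≠ 0 := by exact_mod_cast hk.ne'
  have := Real.geom_mean_le_arith_mean_weighted univ (fun _ : Fin k => (k : ℝ)⁻¹)
    (fun i => a i ^ k) (fun _ _ => by positivity) (by simp [hk'])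
    (fun i _ => pow_nonneg (ha i) _)
  simp only [Real.pow_rpow_inv_natCast (ha _) hk.ne'] at this
  rwa [← mul_sum, ← div_eq_inv_mul] at this

theorem pr_le_Fk (φ : Γ →* (ZMod N)ˣ) {k : ℕ} (hk : 0 < k) (u : Fin k → (ZMod N)ˣ) (n : ZMod N) :
    pr φ k u n ≤ Fk φ k := by
  have hN : (0 : ℝ) < N := by exact_mod_cast NeZero.pos N
  have hk' : (k : ℝ) ≠ 0 := by exact_mod_cast hk.ne'
  unfold Fk
  rw [le_div_iff₀ hN, mul_comm]
  have h1 : (N : ℝ) * pr φ k u n ≤ ‖(N : ℂ) * pr φ k u n‖ := by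
    rw [← Complex.ofReal_natCast, ← Complex.ofReal_mul, Complex.norm_real]
    exact le_abs_self _
  refine h1.trans ?_
  rw [pr_eq]
  refine (norm_sum_le _ _).trans ?_
  calc _ ≤ ∑ ξ, (∑ i, ‖ft (mu φ) (u i * ξ)‖ ^ k) / k := by
        refine sum_le_sum fun ξ _ => ?_
        rw [norm_mul, AddChar.norm_apply, one_mul, norm_prod]
        exact prod_le_avg hk _ fun _ => norm_nonneg _
    _ = _ := by
      rw [← sum_div, sum_comm]
      have : ∀ i, ∑ ξ, ‖ft (mu φ) (u i * ξ)‖ ^ k = ∑ ξ, ‖ft (mu φ) ξ‖ ^ k := fun i =>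
        Equiv.sum_comp (Units.mulLeft (u i)) fun ξ => ‖ft (mu φ) ξ‖ ^ k
      simp only [this]
      simp [hk']

theorem norm_one_add_lt {z : ZMod N} (hz : z ≠ 0) : ‖1 + ZMod.stdAddChar z‖ < 2 := by
  have h1 : ZMod.stdAddChar z ≠ 1 := by
    intro h
    exact hz (ZMod.injective_stdAddChar (by simpa using h))
  have h2 : ‖ZMod.stdAddChar z‖ = 1 := AddChar.norm_apply _ _
  have h3 := parallelogram_law_with_norm ℝ (1 : ℂ) (ZMod.stdAddChar z)
  have h4 : 0 < ‖1 - ZMod.stdAddChar z‖ := norm_pos_iff.2 (sub_ne_zero.2 h1.symm)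
  rw [h2, norm_one] at h3
  nlinarith [norm_nonneg (1 + ZMod.stdAddChar z)]

theorem exists_rho (N0 : ℕ) : ∃ ρ : ℝ, 0 ≤ ρ ∧ ρ < 1 ∧ ∀ (N : ℕ) [NeZero N], N ≤ N0 →
    ∀ z : ZMod N, z ≠ 0 → ‖1 + ZMod.stdAddChar z‖ ≤ 2 * ρ := by
  induction N0 with
  | zero => exact ⟨0, le_rfl, one_pos, fun N _ h => absurd (NeZero.pos N) (by omega)⟩
  | succ n ih =>
    obtain ⟨ρ, h0, h1, h2⟩ := ih
    obtain ⟨z0, -, hz0⟩ := exists_max_image (univ : Finset (ZMod (n + 1)))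
      (fun z => if z = 0 then 0 else ‖1 + ZMod.stdAddChar z‖) univ_nonempty
    refine ⟨max ρ ((if z0 = 0 then 0 else ‖1 + ZMod.stdAddChar z0‖) / 2), le_max_of_le_left h0,
      max_lt h1 ?_, fun N _ hN z hz => ?_⟩
    · split_ifs with h
      · norm_num
      · linarith [norm_one_add_lt h]
    · rcases hN.lt_or_eq with h | rfl
      · exact (h2 N (by omega) z hz).trans (by gcongr; exact le_max_left _ _)
      · have := hz0 z (mem_univ _)
        rw [if_neg hz] at this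
        linarith [le_max_right ρ ((if z0 = 0 then 0 else ‖1 + ZMod.stdAddChar z0‖) / 2)]

theorem small_mod (N0 : ℕ) : ∃ k0 : ℕ, ∀ (N : ℕ) [NeZero N], N ≤ N0 →
    ∀ (Γ : Type) [Group Γ] [Fintype Γ] (φ : Γ →* (ZMod N)ˣ),
      (∀ ξ : ZMod N, ξ ≠ 0 → ∃ g, ξ * (φ g : ZMod N) ≠ ξ) → Fk φ k0 ≤ 2 / N := by
  obtain ⟨ρ, h0, h1, h2⟩ := exists_rho N0
  obtain ⟨k0, hk0⟩ := exists_pow_lt_of_lt_one (show (0 : ℝ) < 1 / (N0 + 1) by positivity) h1
  refine ⟨k0, fun N _ hN Γ _ _ φ hφ => ?_⟩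
  have hN0 : (0 : ℝ) < N := by exact_mod_cast NeZero.pos N
  have hG : (0 : ℝ) < Fintype.card Γ := by exact_mod_cast Fintype.card_pos
  refine (Fk_le φ (b := 1 / N) (by positivity) fun ξ hξ => ?_).trans (by ring_nf; rfl)
  obtain ⟨g0, hg0⟩ := hφ ξ hξ
  have h3 : ‖ft (mu φ) ξ‖ ≤ ρ := by
    rw [ft_mu, norm_div, Complex.norm_natCast, div_le_iff₀ hG]
    have h4 : 2 * ∑ g, ZMod.stdAddChar (ξ * (φ g : ZMod N)) =
        ∑ g, ZMod.stdAddChar (ξ * (φ g : ZMod N)) * (1 + ZMod.stdAddChar ((ξ * (φ g0 : ZMod N) - ξ) * (φ g : ZMod N))) := by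
      simp only [mul_add, sum_add_distrib, mul_one, two_mul]
      congr 1
      rw [← Equiv.sum_comp (Equiv.mulLeft g0)]
      refine sum_congr rfl fun g _ => ?_
      rw [← AddChar.map_add_eq_mul]
      congr 1
      simp only [Equiv.coe_mulLeft, map_mul, Units.val_mul]
      ring
    have h5 : ‖2 * ∑ g, ZMod.stdAddChar (ξ * (φ g : ZMod N))‖ ≤ ∑ _g : Γ, 2 * ρ := by
      rw [h4]
      refine (norm_sum_le _ _).trans (sum_le_sum fun g _ => ?_)
      rw [norm_mul, AddChar.norm_apply, one_mul]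
      refine h2 N hN _ ?_
      rw [Ne, Units.mul_left_eq_zero, sub_eq_zero]
      exact hg0
    rw [norm_mul, sum_const, card_univ, nsmul_eq_mul, Complex.norm_ofNat] at h5
    linarith
  calc _ ≤ ρ ^ k0 := by gcongr
    _ ≤ 1 / (N0 + 1) := hk0.le
    _ ≤ _ := by
      gcongr
      exact_mod_cast hN.trans (Nat.le_succ _)

end Pool.Agent.P.MP_42fc1a_nt
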