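import Pool.Agent.P.MP_42fc1a_nt.BSG

/-! Sum-product growth in `ZMod N`. -/

set_option autoImplicit false

namespace Pool.Agent.P.MP_42fc1a_nt

open Finset
open scoped Pointwise

section ring

variable {R : Type*} [CommRing R] [DecidableEq R]

/-- `lam * B` is covered by at most `L` translates of `B` -/
def Good (B : Finset R) (L : ℝ) (lam : R) : Prop :=
  ∃ X : Finset R, (X.card : ℝ) ≤ L ∧ ∀ b ∈ B, ∃ x ∈ X, ∃ b' ∈ B, lam * b = x + b'

omit [DecidableEq R] in
theorem Good.mono {B : Finset R} {L L' : ℝ} {lam : R} (h : Good B L lam) (hL : L ≤ L') :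
    Good B L' lam := by
  obtain ⟨X, h1, h2⟩ := h
  exact ⟨X, h1.trans hL, h2⟩

omit [DecidableEq R] in
theorem Good.neg {B : Finset R} (hB : ∀ b ∈ B, -b ∈ B) {L : ℝ} {lam : R} (h : Good B L lam) :
    Good B L (-lam) := by
  obtain ⟨X, h1, h2⟩ := h
  refine ⟨X, h1, fun b hb => ?_⟩
  obtain ⟨x, hx, b', hb', e⟩ := h2 _ (hB b hb)
  exact ⟨x, hx, b', hb', by rw [← e]; ring⟩

theorem Good.mul {B : Finset R} {L L' : ℝ} {lam mu : R} (h : Good B L lam) (h' : Good B L' mu) :
    Good B (L * L') (lam * mu) := by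
  obtain ⟨X, h1, h2⟩ := h
  obtain ⟨Y, h3, h4⟩ := h'
  refine ⟨image₂ (fun x y => x + lam * y) X Y, ?_, fun b hb => ?_⟩
  · calc _ ≤ ((X.card * Y.card : ℕ) : ℝ) := by exact_mod_cast card_image₂_le _ _ _
      _ ≤ L * L' := by
        push_cast
        exact mul_le_mul h1 h3 (Nat.cast_nonneg _) ((Nat.cast_nonneg _).trans h1)
  · obtain ⟨y, hy, b1, hb1, e1⟩ := h4 b hb
    obtain ⟨x, hx, b2, hb2, e2⟩ := h2 b1 hb1
    refine ⟨_, mem_image₂_of_mem hx hy, b2, hb2, ?_⟩
    rw [mul_assoc, e1, mul_add, e2]; ring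

theorem Good.add {B Z : Finset R} {La : ℝ} (hZ : (Z.card : ℝ) ≤ La)
    (hBZ : ∀ b ∈ B, ∀ b' ∈ B, ∃ z ∈ Z, ∃ b'' ∈ B, b + b' = z + b'')
    {L L' : ℝ} {lam mu : R} (h : Good B L lam) (h' : Good B L' mu) :
    Good B (L * L' * La) (lam + mu) := by
  obtain ⟨X, h1, h2⟩ := h
  obtain ⟨Y, h3, h4⟩ := h'
  refine ⟨X + Y + Z, ?_, fun b hb => ?_⟩
  · calc _ ≤ ((X.card * Y.card * Z.card : ℕ) : ℝ) := by
          exact_mod_cast card_add_le.trans (Nat.mul_le_mul_right _ card_add_le)
      _ ≤ L * L' * La := by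
        push_cast
        have hL : 0 ≤ L := (Nat.cast_nonneg _).trans h1
        have hL' : 0 ≤ L' := (Nat.cast_nonneg _).trans h3
        gcongr
  · obtain ⟨y, hy, b1, hb1, e1⟩ := h4 b hb
    obtain ⟨x, hx, b2, hb2, e2⟩ := h2 b hb
    obtain ⟨z, hz, b3, hb3, e3⟩ := hBZ b2 hb2 b1 hb1
    refine ⟨x + y + z, add_mem_add (add_mem_add hx hy) hz, b3, hb3, ?_⟩
    rw [add_mul, e1, e2]
    linear_combination e3

theorem cs_image {α β : Type*} [DecidableEq β] (U : Finset α) (f : α → β) :
    (U.card : ℝ) ^ 2 ≤ (U.image f).card *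
      ∑ u ∈ U, ∑ u' ∈ U, if f u = f u' then (1 : ℝ) else 0 := by
  have h1 : (U.card : ℝ) = ∑ y ∈ U.image f, ((U.filter fun u => f u = y).card : ℝ) := by
    exact_mod_cast card_eq_sum_card_image f U
  have h2 : ∑ u ∈ U, ∑ u' ∈ U, (if f u = f u' then (1 : ℝ) else 0) =
      ∑ y ∈ U.image f, ((U.filter fun u => f u = y).card : ℝ) ^ 2 := by
    rw [← sum_fiberwise_of_maps_to (s := U) (t := U.image f) (g := f)
      (fun u hu => mem_image_of_mem f hu)]
    refine sum_congr rfl fun y _ => ?_
    rw [sq, ← nsmul_eq_mul, ← sum_const]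
    refine sum_congr rfl fun u hu => ?_
    rw [(mem_filter.1 hu).2, card_filter]
    push_cast
    exact sum_congr rfl fun u' _ => by simp [eq_comm]
  rw [h2, h1]
  exact sq_sum_le_card_mul_sum_sq

open Classical in
/-- indicator of non-units -/
noncomputable def nuI (x : R) : ℝ := if IsUnit x then 0 else 1

omit [DecidableEq R] in
theorem nuI_nonneg (x : R) : 0 ≤ nuI x := by
  unfold nuI; split_ifs <;> norm_num

omit [DecidableEq R] in
theorem nuI_le_one (x : R) : nuI x ≤ 1 := by
  unfold nuI; split_ifs <;> norm_num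

omit [DecidableEq R] in
theorem nuI_of_unit {x : R} (h : IsUnit x) : nuI x = 0 := by simp [nuI, h]

omit [DecidableEq R] in
theorem nuI_of_not {x : R} (h : ¬ IsUnit x) : nuI x = 1 := by simp [nuI, h]

/-- number of pairs with non-invertible difference -/
noncomputable def nu (V : Finset R) : ℝ := ∑ c ∈ V, ∑ d ∈ V, nuI (c - d)

open Classical in
theorem exists_big (U V T : Finset R) (hT : T.Nonempty) :
    ∃ lam ∈ T, (T.card : ℝ) * ((U.card : ℝ) * V.card) ^ 2 ≤
      (image₂ (fun a c => a + lam * c) U V).card *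
        (((U.card : ℝ) * V.card) ^ 2 + T.card * U.card * nu V) := by
  let E : R → ℝ := fun lam => ∑ u ∈ U ×ˢ V, ∑ u' ∈ U ×ˢ V,
    if u.1 + lam * u.2 = u'.1 + lam * u'.2 then (1 : ℝ) else 0
  have hE : ∑ lam ∈ T, E lam ≤ ((U.card : ℝ) * V.card) ^ 2 + T.card * U.card * nu V := by
    have h1 : ∀ lam, E lam = (∑ u ∈ U ×ˢ V, ∑ u' ∈ U ×ˢ V,
        if IsUnit (u.2 - u'.2) ∧ u.1 + lam * u.2 = u'.1 + lam * u'.2 then (1 : ℝ) else 0) +
        ∑ u ∈ U ×ˢ V, ∑ u' ∈ U ×ˢ V,
        if ¬ IsUnit (u.2 - u'.2) ∧ u.1 + lam * u.2 = u'.1 + lam * u'.2 then (1 : ℝ) else 0 := by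
      intro lam
      rw [← sum_add_distrib]
      refine sum_congr rfl fun u _ => ?_
      rw [← sum_add_distrib]
      refine sum_congr rfl fun u' _ => ?_
      by_cases h : IsUnit (u.2 - u'.2) <;> simp [h]
    simp only [h1, sum_add_distrib]
    refine add_le_add ?_ ?_
    · rw [sum_comm]
      calc _ ≤ ∑ _u ∈ U ×ˢ V, ∑ _u' ∈ U ×ˢ V, (1 : ℝ) := by
            refine sum_le_sum fun u _ => ?_
            rw [sum_comm]
            refine sum_le_sum fun u' _ => ?_
            rw [sum_boole]
            norm_cast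
            refine card_le_one.2 fun l1 h1 l2 h2 => ?_
            obtain ⟨hu, e1⟩ := (mem_filter.1 h1).2
            obtain ⟨-, e2⟩ := (mem_filter.1 h2).2
            refine hu.mul_right_cancel ?_
            linear_combination e1 - e2
        _ = _ := by simp [sq]
    · calc _ ≤ ∑ _lam ∈ T, (U.card : ℝ) * nu V := by
            refine sum_le_sum fun lam _ => ?_
            have e : (U.card : ℝ) * nu V = ∑ u ∈ U ×ˢ V, ∑ d ∈ V, nuI (u.2 - d) := by
              rw [sum_product, ← nsmul_eq_mul, ← sum_const]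
              rfl
            rw [e]
            refine sum_le_sum fun u _ => ?_
            rw [sum_product_right]
            refine sum_le_sum fun d _ => ?_
            by_cases h : IsUnit (u.2 - d)
            · simp [h, nuI_nonneg]
            · simp only [h, not_false_eq_true, true_and]
              rw [sum_boole, nuI_of_not h]
              norm_cast
              refine card_le_one.2 fun l1 h1 l2 h2 => ?_
              have e1 := (mem_filter.1 h1).2
              have e2 := (mem_filter.1 h2).2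
              linear_combination e2 - e1
        _ = _ := by simp [mul_assoc]
  obtain ⟨lam, hlam, hmin⟩ := exists_min_image T E hT
  have h2 : (T.card : ℝ) * E lam ≤ ∑ l ∈ T, E l := by
    rw [← nsmul_eq_mul, ← sum_const]
    exact sum_le_sum hmin
  refine ⟨lam, hlam, ?_⟩
  have h3 := cs_image (U ×ˢ V) (fun u => u.1 + lam * u.2)
  have e1 : (U ×ˢ V).image (fun u => u.1 + lam * u.2) = image₂ (fun a c => a + lam * c) U V := rfl
  rw [e1, card_product] at h3
  push_cast at h3
  set I : ℝ := ((image₂ (fun a c => a + lam * c) U V).card : ℝ)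
  have hI : 0 ≤ I := Nat.cast_nonneg _
  calc _ ≤ (T.card : ℝ) * (I * E lam) := mul_le_mul_of_nonneg_left h3 (Nat.cast_nonneg _)
    _ = I * (T.card * E lam) := by ring
    _ ≤ _ := mul_le_mul_of_nonneg_left (h2.trans hE) hI

end ring

variable {N : ℕ} [NeZero N]

theorem grow (S T : Finset (ZMod N)) (hT : T.Nonempty) (hS : 1 < S.card)
    (hu : ∀ s ∈ S, ∀ s' ∈ S, s ≠ s' → IsUnit (s - s')) :
    ∃ s ∈ S, ∃ s' ∈ S, ∃ a ∈ T, ∃ b ∈ T, ∃ w, (w = a - b ∨ w = a - b + (s - s')) ∧
      min ((T.card : ℝ) * S.card) N ≤ 2 * (image₂ (fun t c => (s - s') * t + w * c) T S).card := by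
  classical
  let Q : ZMod N → Prop := fun x => ∃ s ∈ S, ∃ s' ∈ S, ∃ a ∈ T, ∃ b ∈ T, s ≠ s' ∧
    (s - s') * x = a - b
  have hcard : ∀ s ∈ S, ∀ s' ∈ S, s ≠ s' → ∀ x,
      (image₂ (fun t c => (s - s') * t + ((s - s') * x) * c) T S).card =
        (image₂ (fun t c => t + x * c) T S).card := by
    intro s hs s' hs' hss x
    rw [← card_image_of_injective (image₂ (fun t c => t + x * c) T S)
      (hu s hs s' hs' hss).mul_right_injective, image_image₂]
    congr 2
    funext t c
    ring
  by_cases hQ : ∀ x, Q x → Q (x + 1)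
  · have h0 : Q 0 := by
      obtain ⟨s, hs, s', hs', hss⟩ := one_lt_card.1 hS
      obtain ⟨a, ha⟩ := hT
      exact ⟨s, hs, s', hs', a, ha, a, ha, hss, by simp⟩
    have hall : ∀ x, Q x := by
      have : ∀ n : ℕ, Q (n : ZMod N) := by
        intro n
        induction n with
        | zero => simpa using h0
        | succ n ih => simpa using hQ _ ih
      intro x
      simpa using this x.val
    obtain ⟨x, -, hx⟩ := exists_big T S univ univ_nonempty
    obtain ⟨s, hs, s', hs', a, ha, b, hb, hss, e⟩ := hall x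
    refine ⟨s, hs, s', hs', a, ha, b, hb, a - b, Or.inl rfl, ?_⟩
    rw [← e, hcard s hs s' hs' hss]
    have hnu : nu S ≤ S.card := by
      unfold nu
      calc _ ≤ ∑ _c ∈ S, (1 : ℝ) := by
            refine sum_le_sum fun c hc => ?_
            rw [sum_eq_single c]
            · exact nuI_le_one _
            · intro d hd hdc
              exact nuI_of_unit (hu c hc d hd hdc.symm)
            · intro h; exact (h hc).elim
        _ = _ := by simp
    rw [card_univ, ZMod.card] at hx
    set I : ℝ := ((image₂ (fun a c => a + x * c) T S).card : ℝ)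
    have hI : 0 ≤ I := Nat.cast_nonneg _
    set m : ℝ := (T.card : ℝ) * S.card with hm
    have hm0 : 0 < m := by
      have := hT.card_pos
      have : 0 < S.card := by omega
      positivity
    have hN : (0 : ℝ) < N := by exact_mod_cast NeZero.pos N
    have h1 : (N : ℝ) * T.card * nu S ≤ N * m := by
      rw [hm, mul_assoc]
      gcongr
    have h2 : (N * m) * m ≤ (I * (m + N)) * m := by nlinarith
    have h3 : N * m ≤ I * (m + N) := le_of_mul_le_mul_right h2 hm0
    rcases le_total m N with h | h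
    · rw [min_eq_left h]
      have : m * N ≤ (2 * I) * N := by nlinarith
      exact le_of_mul_le_mul_right this hN
    · rw [min_eq_right h]
      have : N * m ≤ (2 * I) * m := by nlinarith
      exact le_of_mul_le_mul_right this hm0
  · push Not at hQ
    obtain ⟨x, ⟨s, hs, s', hs', a, ha, b, hb, hss, e⟩, hx⟩ := hQ
    refine ⟨s, hs, s', hs', a, ha, b, hb, a - b + (s - s'), Or.inr rfl, ?_⟩
    have e2 : a - b + (s - s') = (s - s') * (x + 1) := by rw [← e]; ring
    rw [e2, hcard s hs s' hs' hss]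
    have hinj : (image₂ (fun t c => t + (x + 1) * c) T S).card = T.card * S.card := by
      rw [card_image₂_iff]
      rintro ⟨t, c⟩ hp ⟨t', c'⟩ hp' e3
      simp only [Set.mem_prod, mem_coe] at hp hp'
      simp only at e3
      by_cases hc : c = c'
      · subst hc
        exact Prod.ext (by simpa using e3) rfl
      · exact (hx ⟨c, hp.2, c', hp'.2, t', hp'.1, t, hp.1, hc, by linear_combination e3⟩).elim
    rw [hinj]
    push_cast
    have : (0 : ℝ) ≤ (T.card : ℝ) * S.card := by positivity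
    linarith [min_le_left ((T.card : ℝ) * S.card) N]

/-- exponents of the iteration -/
def cc : ℕ → ℕ
  | 0 => 1
  | j + 1 => 3 * cc j + 10

theorem iter (B Z S : Finset (ZMod N)) {La : ℝ} (hLa : 1 ≤ La) (hB : ∀ b ∈ B, -b ∈ B)
    (hZ : (Z.card : ℝ) ≤ La) (hBZ : ∀ b ∈ B, ∀ b' ∈ B, ∃ z ∈ Z, ∃ b'' ∈ B, b + b' = z + b'')
    (hS : 1 < S.card) (hu : ∀ s ∈ S, ∀ s' ∈ S, s ≠ s' → IsUnit (s - s'))
    (hG : ∀ s ∈ S, Good B La s) (j : ℕ) :
    ∃ T : Finset (ZMod N), (∀ t ∈ T, Good B (La ^ cc j) t) ∧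
      min (((S.card : ℝ) / 2) ^ (j + 1)) (N / 2) ≤ T.card := by
  have hS2 : (2 : ℝ) ≤ S.card := by exact_mod_cast hS
  have hN : (0 : ℝ) < N := by exact_mod_cast NeZero.pos N
  induction j with
  | zero =>
    refine ⟨S, fun t ht => by simpa [cc] using hG t ht, (min_le_left _ _).trans ?_⟩
    simp only [zero_add, pow_one]
    linarith
  | succ j ih =>
    obtain ⟨T, hT1, hT2⟩ := ih
    have hT : T.Nonempty := by
      rw [← card_pos]
      have : (0 : ℝ) < T.card := lt_of_lt_of_le (lt_min (by positivity) (by positivity)) hT2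
      exact_mod_cast this
    obtain ⟨s, hs, s', hs', a, ha, b, hb, w, hw, hc⟩ := grow S T hT hS hu
    refine ⟨image₂ (fun t c => (s - s') * t + w * c) T S, ?_, ?_⟩
    · intro t0 ht0
      obtain ⟨t, ht, c, hc, rfl⟩ := mem_image₂.1 ht0
      have g1 : Good B (La ^ 3) (s - s') := by
        have := Good.add hZ hBZ (hG s hs) ((hG s' hs').neg hB)
        rw [← sub_eq_add_neg] at this
        exact this.mono (le_of_eq (by ring))
      have g2 : Good B (La ^ (2 * cc j + 1)) (a - b) := by
        have := Good.add hZ hBZ (hT1 a ha) ((hT1 b hb).neg hB)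
        rw [← sub_eq_add_neg] at this
        exact this.mono (le_of_eq (by ring))
      have g3 : Good B (La ^ (2 * cc j + 5)) w := by
        rcases hw with rfl | rfl
        · exact g2.mono (pow_le_pow_right₀ hLa (by omega))
        · exact (Good.add hZ hBZ g2 g1).mono (le_of_eq (by ring))
      exact (Good.add hZ hBZ (g1.mul (hT1 t ht)) (g3.mul (hG c hc))).mono
        (le_of_eq (by rw [cc]; ring))
    · set I : ℝ := ((image₂ (fun t c => (s - s') * t + w * c) T S).card : ℝ)
      rcases le_total ((T.card : ℝ) * S.card) N with h | h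
      · rw [min_eq_left h] at hc
        rcases le_total (((S.card : ℝ) / 2) ^ (j + 1)) (N / 2) with h' | h'
        · rw [min_eq_left h'] at hT2
          refine (min_le_left _ _).trans ?_
          rw [pow_succ]
          nlinarith
        · rw [min_eq_right h'] at hT2
          refine (min_le_right _ _).trans ?_
          nlinarith
      · rw [min_eq_right h] at hc
        refine (min_le_right _ _).trans ?_
        linarith

end Pool.Agent.P.MP_42fc1a_nt
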