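import Pool.Agent.P.MP_42fc1a_nt.Flat

/-! Joint distribution of subgroup sums modulo two primes. -/

set_option autoImplicit false
set_option linter.unusedSectionVars false

namespace Pool.Agent.P.MP_42fc1a_nt

open Finset

/-- the two exponential sum bounds, for a fixed number of summands -/
def Pack (k : ℕ) (h0 : ℝ) (N0 : ℕ) : Prop :=
  2 ≤ k ∧ (∀ (N : ℕ) [NeZero N], N ≤ N0 →
    ∀ (Γ : Type) [Group Γ] [Fintype Γ] (φ : Γ →* (ZMod N)ˣ),
      (∀ ξ : ZMod N, ξ ≠ 0 → ∃ g, ξ * (φ g : ZMod N) ≠ ξ) → Fk φ k ≤ 2 / N) ∧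
  ∀ (N : ℕ) [NeZero N] (Γ : Type) [Group Γ]
    [Fintype Γ] (φ : Γ →* (ZMod N)ˣ) (h : ℝ), h0 ≤ h →
    (∀ c : ZMod N, h * ∑ g, nuI ((φ g : ZMod N) - c) ≤ Fintype.card Γ) →
    Fk φ k ≤ 1 / N + 1 / h ^ 13

theorem exists_pack : ∃ h0 : ℝ, ∀ N0 : ℕ, ∃ k, Pack k h0 N0 := by
  obtain ⟨k0, h0, H⟩ := big_mod 13
  refine ⟨h0, fun N0 => ?_⟩
  obtain ⟨k1, H1⟩ := small_mod N0
  refine ⟨k0 + k1 + 2, by omega, fun N _ hN Γ _ _ φ hφ => ?_, fun N _ Γ _ _ φ h hh hφ => ?_⟩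
  · exact (Fk_anti φ (by omega)).trans (H1 N hN Γ φ hφ)
  · exact (Fk_anti φ (by omega)).trans (H N Γ φ h hh hφ)

/-- the weight of a prime `p` whose subgroup has order `e` -/
noncomputable def wt (h1 p e : ℕ) : ℝ := 2 / p + if h1 < e then 1 / (e : ℝ) ^ 4 else 0

theorem wt_ge (h1 p e : ℕ) : 2 / p ≤ wt h1 p e := by
  unfold wt
  split_ifs
  · exact le_add_of_nonneg_right (by positivity)
  · simp

theorem wt_nonneg (h1 p e : ℕ) : 0 ≤ wt h1 p e := le_trans (by positivity) (wt_ge h1 p e)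

variable {Γ : Type} [Group Γ] [Fintype Γ]

theorem card_range_mul {G H : Type*} [Group G] [Group H] (φ : G →* H) :
    Nat.card φ.range * Nat.card φ.ker = Nat.card G := by
  rw [← Subgroup.index_ker, mul_comm, Subgroup.card_mul_index]

theorem nc_prime {p : ℕ} [Fact p.Prime] (φ : Γ →* (ZMod p)ˣ) (c : ZMod p) :
    (Nat.card φ.range : ℝ) * ∑ g, nuI ((φ g : ZMod p) - c) ≤ Fintype.card Γ := by
  classical
  by_cases h : ∃ g0, (φ g0 : ZMod p) = c
  · obtain ⟨g0, rfl⟩ := h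
    rw [← Nat.card_eq_fintype_card, ← card_range_mul φ]
    push_cast
    refine le_of_eq ?_
    congr 1
    rw [← Equiv.sum_comp (Equiv.mulRight g0), Nat.card_eq_fintype_card, Fintype.card_subtype,
      card_filter]
    push_cast
    refine sum_congr rfl fun g _ => ?_
    simp [nuI, sub_eq_zero, MonoidHom.mem_ker]
  · push Not at h
    have : ∀ g, nuI ((φ g : ZMod p) - c) = 0 := fun g =>
      nuI_of_unit (sub_ne_zero.2 (h g)).isUnit
    simp [this]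

theorem exists_ne_one {G H : Type*} [Group G] [Group H] (φ : G →* H)
    (h : 1 < Nat.card φ.range) : ∃ g, φ g ≠ 1 := by
  by_contra hh
  push Not at hh
  have : φ.range = ⊥ := by
    rw [eq_bot_iff]
    rintro _ ⟨g, rfl⟩
    simp [hh]
  rw [this] at h
  simp at h

theorem single_bound {k : ℕ} {h0 : ℝ} {N0 : ℕ} (hP : Pack k h0 N0) {p : ℕ} [Fact p.Prime]
    (φ : Γ →* (ZMod p)ˣ) (h1 e : ℕ) (hs : 1 < Nat.card φ.range)
    (h : p ≤ N0 ∨ (h0 ≤ Nat.card φ.range ∧ h1 < e ∧ e ≤ Nat.card φ.range ^ 2))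
    (u : Fin k → (ZMod p)ˣ) (n : ZMod p) : pr φ k u n ≤ wt h1 p e := by
  refine (pr_le_Fk φ (by linarith [hP.1]) u n).trans ?_
  rcases h with h | ⟨h, h2, h3⟩
  · refine (hP.2.1 p h Γ φ fun ξ hξ => ?_).trans (wt_ge _ _ _)
    obtain ⟨g, hg⟩ := exists_ne_one φ hs
    exact ⟨g, fun h => hg (Units.ext (mul_left_cancel₀ hξ (by simpa using h)))⟩
  · refine (hP.2.2 p Γ φ _ h (nc_prime φ)).trans ?_
    rw [wt, if_pos h2]
    have he : (0 : ℝ) < e := by exact_mod_cast (by omega : 0 < e)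
    gcongr
    · norm_num
    · have : e ^ 4 ≤ Nat.card φ.range ^ 13 := by
        calc e ^ 4 ≤ (Nat.card φ.range ^ 2) ^ 4 := by gcongr
          _ = Nat.card φ.range ^ 8 := by ring
          _ ≤ _ := Nat.pow_le_pow_right (by omega) (by norm_num)
      exact_mod_cast this

/-- joint probability of two sums -/
noncomputable def pr2 {p q : ℕ} (φ : Γ →* (ZMod p)ˣ) (ψ : Γ →* (ZMod q)ˣ) (k : ℕ) (a : ZMod p)
    (b : ZMod q) : ℝ :=
  (∑ y : Fin k → Γ, (if ∑ i, (φ (y i) : ZMod p) = a then (1 : ℝ) else 0) *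
    (if ∑ i, (ψ (y i) : ZMod q) = b then (1 : ℝ) else 0)) / Fintype.card Γ ^ k

theorem pr2_comm {p q : ℕ} (φ : Γ →* (ZMod p)ˣ) (ψ : Γ →* (ZMod q)ˣ) (k : ℕ) (a : ZMod p)
    (b : ZMod q) : pr2 φ ψ k a b = pr2 ψ φ k b a := by
  simp only [pr2, mul_comm]

theorem cond_bound {p q : ℕ} (φ : Γ →* (ZMod p)ˣ) (ψ : Γ →* (ZMod q)ˣ) {H : Type} [Group H]
    [Fintype H] (θ : H →* Γ) (hθ : ∀ z, ψ (θ z) = 1) {k : ℕ} {β : ℝ}
    (hβ : ∀ u n, pr (φ.comp θ) k u n ≤ β) (a : ZMod p) (b : ZMod q) :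
    pr2 φ ψ k a b ≤ β * pr ψ k 1 b := by
  classical
  have hH : (0 : ℝ) < (Fintype.card H : ℝ) ^ k := by
    have : (0 : ℝ) < Fintype.card H := by exact_mod_cast Fintype.card_pos
    positivity
  unfold pr2
  rw [pr, ← mul_div_assoc]
  gcongr
  refine le_of_mul_le_mul_left ?_ hH
  have h1 : ∀ z : Fin k → H,
      ∑ y : Fin k → Γ, (if ∑ i, (φ (y i) : ZMod p) = a then (1 : ℝ) else 0) *
        (if ∑ i, (ψ (y i) : ZMod q) = b then (1 : ℝ) else 0) =
      ∑ y : Fin k → Γ, (if ∑ i, (φ (y i) : ZMod p) * φ (θ (z i)) = a then (1 : ℝ) else 0) *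
        (if ∑ i, (ψ (y i) : ZMod q) = b then (1 : ℝ) else 0) := by
    intro z
    rw [← Equiv.sum_comp (Equiv.mulRight fun i => θ (z i))]
    simp [hθ]
  have h2 : (Fintype.card H : ℝ) ^ k = ∑ _z : Fin k → H, (1 : ℝ) := by simp
  calc _ = ∑ z : Fin k → H, ∑ y : Fin k → Γ,
        (if ∑ i, (φ (y i) : ZMod p) * φ (θ (z i)) = a then (1 : ℝ) else 0) *
        (if ∑ i, (ψ (y i) : ZMod q) = b then (1 : ℝ) else 0) := by
        rw [h2, sum_mul]
        exact sum_congr rfl fun z _ => by rw [one_mul, h1 z]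
    _ ≤ _ := by
      rw [sum_comm, mul_sum, mul_sum]
      refine sum_le_sum fun y _ => ?_
      rw [← sum_mul, ← mul_assoc]
      have h3 := hβ (fun i => φ (y i)) a
      rw [pr, div_le_iff₀' hH] at h3
      simp only [Pi.one_apply, Units.val_one, one_mul]
      exact mul_le_mul_of_nonneg_right h3 (by split_ifs <;> norm_num)

theorem exists_crt {p q : ℕ} (hpq : p.Coprime q) (φ : Γ →* (ZMod p)ˣ) (ψ : Γ →* (ZMod q)ˣ) :
    ∃ χ : Γ →* (ZMod (p * q))ˣ, ∀ g, ZMod.chineseRemainder hpq (χ g) = (↑(φ g), ↑(ψ g)) := by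
  refine ⟨(Units.map (ZMod.chineseRemainder hpq).symm.toMonoidHom).comp
    (MulEquiv.prodUnits.symm.toMonoidHom.comp (φ.prod ψ)), fun g => ?_⟩
  simp [MulEquiv.prodUnits]

theorem comp_bound {k : ℕ} {h0 : ℝ} {N0 : ℕ} (hP : Pack k h0 N0) {p q : ℕ} [hp : Fact p.Prime]
    [hq : Fact q.Prime] (hpq : p ≠ q) (φ : Γ →* (ZMod p)ˣ) (ψ : Γ →* (ZMod q)ˣ)
    (a : ZMod p) (b : ZMod q) :
    (1 < Nat.card φ.range → 1 < Nat.card ψ.range → p * q ≤ N0 → pr2 φ ψ k a b ≤ 2 / (p * q)) ∧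
    ∀ h : ℝ, h0 ≤ h → 2 * h ≤ Nat.card φ.range → 2 * h ≤ Nat.card ψ.range →
      pr2 φ ψ k a b ≤ 1 / (p * q) + 1 / h ^ 13 := by
  have hc : p.Coprime q := (Nat.coprime_primes hp.out hq.out).2 hpq
  have : NeZero (p * q) := ⟨mul_ne_zero hp.out.ne_zero hq.out.ne_zero⟩
  obtain ⟨χ, hχ⟩ := exists_crt hc φ ψ
  set E := ZMod.chineseRemainder hc
  have h1 : pr2 φ ψ k a b ≤ Fk χ k := by
    refine le_trans (le_of_eq ?_) (pr_le_Fk χ (by linarith [hP.1]) 1 (E.symm (a, b)))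
    unfold pr2 pr
    congr 1
    refine sum_congr rfl fun y _ => ?_
    simp only [Pi.one_apply, Units.val_one, one_mul, RingEquiv.eq_symm_apply, map_sum, hχ,
      Prod.ext_iff, Prod.fst_sum, Prod.snd_sum]
    by_cases ha : ∑ i, (φ (y i) : ZMod p) = a <;> simp [ha]
  refine ⟨fun h2 h3 h4 => h1.trans ?_, fun h h2 h3 h4 => h1.trans ?_⟩
  · refine (hP.2.1 _ h4 Γ χ fun ξ hξ => ?_).trans (by push_cast; rfl)
    by_contra hcon
    push Not at hcon
    have h5 : ∀ g, (E ξ).1 * φ g = (E ξ).1 ∧ (E ξ).2 * ψ g = (E ξ).2 := by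
      intro g
      have := congrArg E (hcon g)
      rwa [map_mul, hχ, Prod.ext_iff] at this
    obtain ⟨g, hg⟩ := exists_ne_one φ h2
    obtain ⟨g', hg'⟩ := exists_ne_one ψ h3
    refine hξ (E.injective (by
      rw [map_zero]
      refine Prod.ext ?_ ?_
      · by_contra h
        exact hg (Units.ext (mul_left_cancel₀ h (by simpa using (h5 g).1)))
      · by_contra h
        exact hg' (Units.ext (mul_left_cancel₀ h (by simpa using (h5 g').2)))))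
  · refine (hP.2.2 _ Γ χ h h2 fun c => ?_).trans (by push_cast; rfl)
    have h5 : ∀ g, nuI ((χ g : ZMod (p * q)) - c) ≤
        nuI ((φ g : ZMod p) - (E c).1) + nuI ((ψ g : ZMod q) - (E c).2) := by
      intro g
      by_cases a1 : IsUnit ((φ g : ZMod p) - (E c).1)
      · by_cases a2 : IsUnit ((ψ g : ZMod q) - (E c).2)
        · rw [nuI_of_unit a1, nuI_of_unit a2, nuI_of_unit, add_zero]
          have : IsUnit (E (χ g - c)) := by
            rw [map_sub, hχ, Prod.isUnit_iff]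
            exact ⟨a1, a2⟩
          simpa using this.map E.symm
        · rw [nuI_of_not a2]
          linarith [nuI_le_one ((χ g : ZMod (p * q)) - c), nuI_nonneg ((φ g : ZMod p) - (E c).1)]
      · rw [nuI_of_not a1]
        linarith [nuI_le_one ((χ g : ZMod (p * q)) - c), nuI_nonneg ((ψ g : ZMod q) - (E c).2)]
    have h6 := sum_le_sum fun g (_ : g ∈ univ) => h5 g
    rw [sum_add_distrib] at h6
    have h7 := nc_prime φ (E c).1
    have h8 := nc_prime ψ (E c).2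
    have s1 : 0 ≤ ∑ g, nuI ((φ g : ZMod p) - (E c).1) := sum_nonneg fun _ _ => nuI_nonneg _
    have s2 : 0 ≤ ∑ g, nuI ((ψ g : ZMod q) - (E c).2) := sum_nonneg fun _ _ => nuI_nonneg _
    have s3 : 0 ≤ ∑ g, nuI ((χ g : ZMod (p * q)) - c) := sum_nonneg fun _ _ => nuI_nonneg _
    rcases le_total h 0 with h9 | h9
    · exact (mul_nonpos_of_nonpos_of_nonneg h9 s3).trans (Nat.cast_nonneg _)
    · nlinarith [mul_le_mul_of_nonneg_left h6 h9, mul_le_mul_of_nonneg_right h3 s1,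
        mul_le_mul_of_nonneg_right h4 s2]

theorem range_le_mul {G H H' : Type*} [Group G] [Finite G] [Group H] [Group H'] (φ : G →* H)
    (ψ : G →* H') :
    Nat.card φ.range ≤ Nat.card (φ.comp ψ.ker.subtype).range * Nat.card ψ.range := by
  have h1 := card_range_mul φ
  have h2 := card_range_mul ψ
  have h3 := card_range_mul (φ.comp ψ.ker.subtype)
  have h4 : Nat.card (φ.comp ψ.ker.subtype).ker ≤ Nat.card φ.ker :=
    Nat.card_le_card_of_injective (fun x => ⟨x.1.1, x.2⟩) fun x y h =>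
      Subtype.ext (Subtype.ext (congrArg (fun z : φ.ker => z.1) h))
  have h5 : 0 < Nat.card φ.ker := Nat.card_pos
  refine Nat.le_of_mul_le_mul_right ?_ h5
  rw [h1, ← h2, ← h3]
  calc _ ≤ Nat.card ψ.range * (Nat.card (φ.comp ψ.ker.subtype).range * Nat.card φ.ker) := by
        gcongr
    _ = _ := by ring

theorem single_bound' {k : ℕ} {h0 : ℝ} {B : ℕ} (hP : Pack k h0 (B * B)) {p : ℕ} [Fact p.Prime]
    (φ : Γ →* (ZMod p)ˣ) {h1 e : ℕ} (hh : 2 * h0 ≤ h1) (hh' : 8192 ≤ h1)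
    (hs : 1 < Nat.card φ.range) (he : e ≤ Nat.card φ.range ^ 2) (hB : e ≤ h1 ^ 2 → p ≤ B)
    (u : Fin k → (ZMod p)ˣ) (n : ZMod p) : pr φ k u n ≤ wt h1 p e := by
  refine single_bound hP φ h1 e hs ?_ u n
  by_cases h : e ≤ h1 ^ 2
  · exact Or.inl ((hB h).trans (Nat.le_mul_self _))
  · refine Or.inr ⟨?_, by nlinarith, he⟩
    have h2 : h1 ≤ Nat.card φ.range := by nlinarith
    have h3 : (h1 : ℝ) ≤ Nat.card φ.range := by exact_mod_cast h2
    have h4 : (0 : ℝ) ≤ h1 := Nat.cast_nonneg _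
    linarith

theorem pair_bound_aux {k : ℕ} {h0 : ℝ} {B : ℕ} (hP : Pack k h0 (B * B)) {p q : ℕ}
    [hp : Fact p.Prime] [hq : Fact q.Prime] (hpq : p ≠ q) (φ : Γ →* (ZMod p)ˣ)
    (ψ : Γ →* (ZMod q)ˣ) {h1 : ℕ} (hh : 2 * h0 ≤ h1) (hh' : 8192 ≤ h1)
    (hφ : 1 < Nat.card φ.range) (hψ : 1 < Nat.card ψ.range)
    (hB : Nat.card φ.range ≤ h1 ^ 2 → p ≤ B) (hB' : Nat.card ψ.range ≤ h1 ^ 2 → q ≤ B)
    (hle : Nat.card ψ.range ≤ Nat.card φ.range) (a : ZMod p) (b : ZMod q) :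
    pr2 φ ψ k a b ≤ wt h1 p (Nat.card φ.range) * wt h1 q (Nat.card ψ.range) := by
  classical
  have hp0 : (0 : ℝ) < p := by exact_mod_cast hp.out.pos
  have hq0 : (0 : ℝ) < q := by exact_mod_cast hq.out.pos
  by_cases hc : Nat.card φ.range ≤ Nat.card ψ.range ^ 2
  · obtain ⟨c1, c2⟩ := comp_bound hP hpq φ ψ a b
    by_cases hs : Nat.card ψ.range ≤ h1
    · refine (c1 hφ hψ (Nat.mul_le_mul (hB (by nlinarith)) (hB' (by nlinarith)))).trans ?_
      refine le_trans ?_ (mul_le_mul (wt_ge _ _ _) (wt_ge _ _ _) (by positivity)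
        (wt_nonneg _ _ _))
      rw [div_mul_div_comm]
      gcongr
      norm_num
    · rw [not_le] at hs
      generalize Nat.card φ.range = e at *
      generalize Nat.card ψ.range = e' at *
      have a1 : (h1 : ℝ) < e' := by exact_mod_cast hs
      have a2 : (e' : ℝ) ≤ e := by exact_mod_cast hle
      have a3 : (e : ℝ) ≤ e' ^ 2 := by exact_mod_cast hc
      have a4 : (8192 : ℝ) ≤ h1 := by exact_mod_cast hh'
      have a5 : (0 : ℝ) < e' := by linarith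
      have a6 : (0 : ℝ) < e := by linarith
      refine (c2 (e' / 2) (by linarith) (by linarith) (by linarith)).trans ?_
      rw [wt, wt, if_pos hs, if_pos (hs.trans_le hle)]
      have b1 : 1 / ((p : ℝ) * q) ≤ 2 / p * (2 / q) := by
        rw [div_mul_div_comm]
        gcongr
        norm_num
      have b2 : 1 / ((e' : ℝ) / 2) ^ 13 ≤ 1 / (e : ℝ) ^ 4 * (1 / (e' : ℝ) ^ 4) := by
        rw [div_mul_div_comm, one_mul]
        gcongr
        calc (e : ℝ) ^ 4 * (e' : ℝ) ^ 4 ≤ ((e' : ℝ) ^ 2) ^ 4 * (e' : ℝ) ^ 4 := by gcongr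
          _ = (e' : ℝ) ^ 12 * 1 := by ring
          _ ≤ (e' : ℝ) ^ 12 * ((e' : ℝ) / 8192) := by gcongr; linarith
          _ = _ := by ring
      have b3 : 0 ≤ 2 / (p : ℝ) * (1 / (e' : ℝ) ^ 4) := by positivity
      have b4 : 0 ≤ 1 / (e : ℝ) ^ 4 * (2 / (q : ℝ)) := by positivity
      nlinarith
  · have h2 := range_le_mul φ ψ
    have h3 : Nat.card φ.range ≤ Nat.card (φ.comp ψ.ker.subtype).range ^ 2 := by
      by_contra h
      nlinarith [Nat.mul_le_mul h2 h2, Nat.mul_le_mul (not_le.1 h).le (not_le.1 hc).le,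
        Nat.mul_lt_mul'' (not_le.1 h) (not_le.1 hc)]
    refine (cond_bound φ ψ ψ.ker.subtype (fun z => z.2)
      (single_bound' hP _ hh hh' (by nlinarith) h3 hB) a b).trans ?_
    exact mul_le_mul_of_nonneg_left
      (single_bound' hP _ hh hh' hψ (by nlinarith) hB' _ _) (wt_nonneg _ _ _)

theorem pair_bound {k : ℕ} {h0 : ℝ} {B : ℕ} (hP : Pack k h0 (B * B)) {p q : ℕ}
    [hp : Fact p.Prime] [hq : Fact q.Prime] (hpq : p ≠ q) (φ : Γ →* (ZMod p)ˣ)
    (ψ : Γ →* (ZMod q)ˣ) {h1 : ℕ} (hh : 2 * h0 ≤ h1) (hh' : 8192 ≤ h1)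
    (hφ : 1 < Nat.card φ.range) (hψ : 1 < Nat.card ψ.range)
    (hB : Nat.card φ.range ≤ h1 ^ 2 → p ≤ B) (hB' : Nat.card ψ.range ≤ h1 ^ 2 → q ≤ B)
    (a : ZMod p) (b : ZMod q) :
    pr2 φ ψ k a b ≤ wt h1 p (Nat.card φ.range) * wt h1 q (Nat.card ψ.range) := by
  rcases le_total (Nat.card ψ.range) (Nat.card φ.range) with h | h
  · exact pair_bound_aux hP hpq φ ψ hh hh' hφ hψ hB hB' h a b
  · rw [pr2_comm, mul_comm]
    exact pair_bound_aux hP hpq.symm ψ φ hh hh' hψ hφ hB' hB h b a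

theorem diag_bound {k : ℕ} {h0 : ℝ} {B : ℕ} (hP : Pack k h0 (B * B)) {p : ℕ}
    [hp : Fact p.Prime] (φ ψ : Γ →* (ZMod p)ˣ) {h1 : ℕ} (hh : 2 * h0 ≤ h1) (hh' : 8192 ≤ h1)
    (hψ : 1 < Nat.card ψ.range) (hB' : Nat.card ψ.range ≤ h1 ^ 2 → p ≤ B)
    {H : Type} [Group H] [Fintype H] (θ : H →* Γ) (hθ : ∀ z, ψ (θ z) = 1) {l : ℕ}
    (hl : l ≤ Nat.card (φ.comp θ).range) (a b : ZMod p) :
    l * pr2 φ ψ k a b ≤ wt h1 p (Nat.card ψ.range) := by
  have h2 : (0 : ℝ) < Nat.card (φ.comp θ).range := by exact_mod_cast Nat.card_pos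
  have h3 := cond_bound φ ψ θ hθ (k := k) (fun u n =>
    ((pr_le_Fk _ (by linarith [hP.1]) u n).trans (Fk_anti _ hP.1)).trans
      (Fk_two _ hp.out.one_lt h2 (nc_prime _))) a b
  have h4 := single_bound' hP ψ hh hh' hψ (by nlinarith) hB' 1 b
  have h5 : (l : ℝ) ≤ Nat.card (φ.comp θ).range := by exact_mod_cast hl
  have h6 := h3.trans (mul_le_mul_of_nonneg_left h4 (by positivity))
  rw [div_mul_eq_mul_div, one_mul, le_div_iff₀' h2] at h6
  refine le_trans (mul_le_mul_of_nonneg_right h5 ?_) h6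
  unfold pr2
  refine div_nonneg (sum_nonneg fun y _ => ?_) (by positivity)
  split_ifs <;> norm_num

end Pool.Agent.P.MP_42fc1a_nt
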