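import Pool.Agent.P.MP_42fc1a_nt.Pair

/-! Sums over smooth numbers and over primes with a given order of two. -/

set_option autoImplicit false
set_option linter.unusedSectionVars false

namespace Pool.Agent.P.MP_42fc1a_nt

open Finset Real
open ArithmeticFunction (cardFactors cardFactors_mul cardFactors_apply_prime cardFactors_apply)

/-- a completely multiplicative majorant -/
noncomputable def fm : ℕ →* ℝ where
  toFun d := (36 / 25) ^ cardFactors d / d
  map_one' := by simp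
  map_mul' m n := by
    rcases eq_or_ne m 0 with rfl | hm
    · simp
    rcases eq_or_ne n 0 with rfl | hn
    · simp
    rw [cardFactors_mul hm hn, pow_add, div_mul_div_comm]
    push_cast
    rfl

theorem fm_apply (d : ℕ) : fm d = (36 / 25) ^ cardFactors d / d := rfl

theorem fm_nonneg (d : ℕ) : 0 ≤ fm d := by rw [fm_apply]; positivity

theorem fm_prime {p : ℕ} (hp : p.Prime) : fm p = 36 / 25 / p := by
  rw [fm_apply, cardFactors_apply_prime hp, pow_one]

theorem fm_prime_le {p : ℕ} (hp : p.Prime) : fm p ≤ 18 / 25 := by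
  have : (2 : ℝ) ≤ p := by exact_mod_cast hp.two_le
  rw [fm_prime hp, div_le_iff₀ (by linarith)]
  linarith

/-- the Euler product of the majorant -/
noncomputable def PiF (L : ℕ) : ℝ := ∏ p ∈ L.primesBelow, (1 - fm p)⁻¹

theorem hasSum_fm (L : ℕ) : HasSum (L.smoothNumbers.indicator fm) (PiF L) :=
  hasSum_subtype_iff_indicator.1
    (EulerProduct.summable_and_hasSum_smoothNumbers_prod_primesBelow_geometric (f := fm)
      (fun hp => by
        rw [Real.norm_of_nonneg (fm_nonneg _)]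
        linarith [fm_prime_le hp]) L).2

theorem sum_fm_le {L : ℕ} {S : Finset ℕ} (hS : ∀ d ∈ S, d ∈ L.smoothNumbers) :
    ∑ d ∈ S, fm d ≤ PiF L := by
  refine le_trans (le_of_eq ?_) (sum_le_hasSum S
    (fun d _ => Set.indicator_nonneg (fun d _ => fm_nonneg d) d) (hasSum_fm L))
  exact sum_congr rfl fun d hd => (Set.indicator_of_mem (hS d hd) _).symm

theorem tail_fm (L : ℕ) {ε : ℝ} (hε : 0 < ε) : ∃ D ∈ L.smoothNumbers, ∀ S : Finset ℕ,
    (∀ d ∈ S, d ∈ L.smoothNumbers ∧ ¬ d ∣ D) → ∑ d ∈ S, fm d ≤ ε := by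
  classical
  obtain ⟨s, hs⟩ := summable_iff_vanishing_norm.1 (hasSum_fm L).summable ε hε
  refine ⟨∏ d ∈ s.filter (· ∈ L.smoothNumbers), d, ?_, fun S hS => ?_⟩
  · refine prod_induction _ (· ∈ L.smoothNumbers) (fun a b => Nat.mul_mem_smoothNumbers) ?_
      fun d hd => (mem_filter.1 hd).2
    simp [Nat.mem_smoothNumbers]
  · have := hs S (disjoint_left.2 fun d hd hd' =>
      (hS d hd).2 (dvd_prod_of_mem _ (mem_filter.2 ⟨hd', (hS d hd).1⟩)))
    rw [sum_congr rfl fun d hd => Set.indicator_of_mem (hS d hd).1 _] at this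
    exact (le_abs_self _).trans this.le

theorem sum_fm_dvd {L l : ℕ} {S : Finset ℕ} (hS : ∀ d ∈ S, d ∈ L.smoothNumbers ∧ l ∣ d) :
    ∑ d ∈ S, fm d ≤ fm l * PiF L := by
  have h1 : ∑ d ∈ S, fm d = fm l * ∑ d ∈ S.image (· / l), fm d := by
    rw [sum_image, mul_sum]
    · refine sum_congr rfl fun d hd => ?_
      rw [← map_mul, Nat.mul_div_cancel' (hS d hd).2]
    · intro a ha b hb hab
      rw [← Nat.mul_div_cancel' (hS a ha).2, ← Nat.mul_div_cancel' (hS b hb).2]
      exact congrArg _ hab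
  rw [h1]
  refine mul_le_mul_of_nonneg_left (sum_fm_le fun d hd => ?_) (fm_nonneg _)
  obtain ⟨a, ha, rfl⟩ := mem_image.1 hd
  exact Nat.mem_smoothNumbers_of_dvd (hS a ha).1 (Nat.div_dvd_of_dvd (hS a ha).2)

theorem mertens_aux (n : ℕ) : ∑ p ∈ (n + 1).primesLE, log p / p ≤
    (∑ p ∈ (n + 1).primesLE, log p) / (n + 1 : ℕ) + log 4 * log (n + 1 : ℕ) := by
  induction n with
  | zero => simp
  | succ n ih =>
    have h1 := Chebyshev.theta_le_log4_mul_x (x := (n + 1 : ℕ)) (Nat.cast_nonneg _)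
    rw [Chebyshev.theta_eq_sum_primesLE_log] at h1
    have hn : (0 : ℝ) < (n + 1 : ℕ) := by positivity
    have h2 : 1 / ((n + 1 + 1 : ℕ) : ℝ) ≤ log (n + 1 + 1 : ℕ) - log (n + 1 : ℕ) := by
      rw [← log_div (by positivity) hn.ne']
      refine le_trans (le_of_eq ?_) (one_sub_inv_le_log_of_pos (by positivity))
      push_cast
      field_simp
      ring
    have h4 : 0 < log 4 := log_pos (by norm_num)
    have h3 : (∑ p ∈ (n + 1).primesLE, log p) / (n + 1 : ℕ) ≤
        (∑ p ∈ (n + 1).primesLE, log p) / (n + 1 + 1 : ℕ) + log 4 * (1 / (n + 1 + 1 : ℕ)) := by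
      rw [mul_one_div, ← add_div, div_le_div_iff₀ hn (by positivity)]
      push_cast at h1 ⊢
      linarith
    have h5 := mul_le_mul_of_nonneg_left h2 h4.le
    rw [Nat.primesLE_succ (n + 1)]
    split_ifs with h
    · rw [sum_insert (by simp [Nat.mem_primesLE]), sum_insert (by simp [Nat.mem_primesLE]), add_div]
      linarith
    · linarith

theorem mertens (n : ℕ) (hn : 0 < n) : ∑ p ∈ n.primesLE, log p / p ≤ log 4 * (1 + log n) := by
  obtain ⟨n, rfl⟩ : ∃ m, n = m + 1 := ⟨n - 1, by omega⟩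
  have h1 := Chebyshev.theta_le_log4_mul_x (x := (n + 1 : ℕ)) (Nat.cast_nonneg _)
  rw [Chebyshev.theta_eq_sum_primesLE_log, ← div_le_iff₀ (by positivity)] at h1
  linarith [mertens_aux n]

theorem PiF_le : ∃ C : ℝ, 0 < C ∧ ∀ n : ℕ, 0 < n → PiF (n + 1) ≤ C * (n : ℝ) ^ (1 / 8 : ℝ) := by
  refine ⟨exp (3 * (4 ^ 48 : ℕ) + 1 / 8), exp_pos _, fun n hn => ?_⟩
  have h4 : 0 < log 4 := log_pos (by norm_num)
  have h1 : ∀ p ∈ n.primesLE, (1 - fm p)⁻¹ ≤
      exp ((if p < 4 ^ 48 then 3 else 0) + 1 / (8 * log 4) * (log p / p)) := by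
    intro p hp
    have hp := (Nat.mem_primesLE.1 hp).2
    have h2 := fm_prime_le hp
    have h0 := fm_nonneg p
    have hp2 : (2 : ℝ) ≤ p := by exact_mod_cast hp.two_le
    have h3 : (1 - fm p)⁻¹ ≤ 6 / p + 1 := by
      have : 6 / (p : ℝ) = 25 / 6 * fm p := by rw [fm_prime hp]; ring
      rw [this, inv_le_iff_one_le_mul₀ (by linarith)]
      nlinarith
    refine h3.trans ((add_le_add_left ?_ 1).trans (add_one_le_exp _))
    have h5 : 0 ≤ log p := log_natCast_nonneg p
    split_ifs with h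
    · refine le_add_of_le_of_nonneg ?_ (by positivity)
      rw [div_le_iff₀ (by linarith)]
      linarith
    · have h6 : 48 * log 4 ≤ log p := by
        have : ((4 : ℝ) ^ 48) ≤ p := by exact_mod_cast not_lt.1 h
        simpa using log_le_log (by positivity) this
      rw [zero_add, ← mul_div_assoc]
      gcongr
      rw [one_div, ← div_eq_inv_mul, le_div_iff₀ (by positivity)]
      linarith
  calc PiF (n + 1) ≤ ∏ p ∈ n.primesLE,
        exp ((if p < 4 ^ 48 then 3 else 0) + 1 / (8 * log 4) * (log p / p)) :=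
        prod_le_prod (fun p hp => inv_nonneg.2 (by
          linarith [fm_prime_le (Nat.mem_primesLE.1 hp).2])) h1
    _ ≤ exp (3 * (4 ^ 48 : ℕ) + 1 / 8 + log n * (1 / 8)) := by
      rw [← exp_sum, exp_le_exp, sum_add_distrib, ← mul_sum, add_assoc]
      refine add_le_add ?_ ?_
      · rw [← sum_filter, sum_const, nsmul_eq_mul, mul_comm]
        gcongr
        generalize 4 ^ 48 = z
        exact (card_le_card fun p hp => mem_range.2 (mem_filter.1 hp).2).trans (card_range z).le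
      · refine (mul_le_mul_of_nonneg_left (mertens n hn) (by positivity)).trans (le_of_eq ?_)
        field_simp
    _ = _ := by rw [exp_add, rpow_def_of_pos (by exact_mod_cast hn)]

theorem card_primes_le {n : ℕ} (hn : 0 < n) {S : Finset ℕ}
    (hS : ∀ p ∈ S, p.Prime ∧ (2 : ZMod p) ^ n = 1) : S.card ≤ n := by
  have h0 : 1 < 2 ^ n := Nat.one_lt_two_pow hn.ne'
  have h1 : S ⊆ (2 ^ n - 1).primeFactors := by
    intro p hp
    refine Nat.mem_primeFactors.2 ⟨(hS p hp).1, ?_, by omega⟩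
    rw [← ZMod.natCast_eq_zero_iff, Nat.cast_sub h0.le]
    simp [(hS p hp).2]
  have h2 : 2 ^ S.card ≤ 2 ^ n - 1 := by
    refine le_trans ?_ (Nat.le_of_dvd (by omega) (Nat.prod_primeFactors_dvd _))
    refine (pow_card_le_prod S id 2 fun p hp => (hS p hp).1.two_le).trans ?_
    exact prod_le_prod_of_subset_of_one_le' h1 fun p hp _ =>
      (Nat.prime_of_mem_primeFactors hp).one_le
  exact (Nat.pow_le_pow_iff_right (a := 2) (by norm_num)).1 (by omega)

theorem sum_inv_le {d : ℕ} (hd : 0 < d) {S : Finset ℕ} (h0 : ∀ j ∈ S, 0 < j) (hS : S.card ≤ d) :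
    ∑ j ∈ S, (1 / j : ℝ) ≤ 2 + log d := by
  have h1 := harmonic_le_one_add_log d
  rw [harmonic_eq_sum_Icc] at h1
  push_cast at h1
  have hd' : (0 : ℝ) < d := by exact_mod_cast hd
  calc _ ≤ ∑ j ∈ S, ((if j ∈ Icc 1 d then (j : ℝ)⁻¹ else 0) + 1 / d) := by
        refine sum_le_sum fun j hj => ?_
        split_ifs with h
        · rw [one_div]; exact le_add_of_nonneg_right (by positivity)
        · have := h0 j hj
          rw [zero_add]
          gcongr
          rw [mem_Icc] at h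
          omega
    _ ≤ ∑ j ∈ Icc 1 d, (j : ℝ)⁻¹ + 1 := by
      rw [sum_add_distrib, ← sum_filter]
      refine add_le_add (sum_le_sum_of_subset_of_nonneg (fun j hj => (mem_filter.1 hj).2)
        fun _ _ _ => by positivity) ?_
      rw [sum_const, nsmul_eq_mul, mul_one_div, div_le_one hd']
      exact_mod_cast hS
    _ ≤ _ := by linarith

/-- the order of two -/
noncomputable def od (p : ℕ) : ℕ := orderOf (2 : ZMod p)

/-- the order of `2 ^ D` -/
noncomputable def oe (D p : ℕ) : ℕ := orderOf ((2 : ZMod p) ^ D)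

theorem od_dvd {p : ℕ} (hp : p.Prime) (h2 : p ≠ 2) : od p ∣ p - 1 := by
  have : Fact p.Prime := ⟨hp⟩
  refine ZMod.orderOf_dvd_card_sub_one ?_
  intro h
  have : ((2 : ℕ) : ZMod p) = 0 := by exact_mod_cast h
  rw [ZMod.natCast_eq_zero_iff] at this
  exact h2 ((Nat.prime_dvd_prime_iff_eq hp Nat.prime_two).1 this)

theorem od_pos {p : ℕ} (hp : p.Prime) (h2 : p ≠ 2) : 0 < od p :=
  Nat.pos_of_dvd_of_pos (od_dvd hp h2) (by have := hp.two_le; omega)

theorem oe_dvd (D p : ℕ) : oe D p ∣ od p := orderOf_pow_dvd _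

theorem sum_od_le {d : ℕ} {S : Finset ℕ} (hS : ∀ p ∈ S, p.Prime ∧ p ≠ 2 ∧ od p = d) :
    ∑ p ∈ S, (1 / p : ℝ) ≤ (2 + log d) / d := by
  rcases S.eq_empty_or_nonempty with rfl | ⟨p0, hp0⟩
  · have := log_natCast_nonneg d
    simp only [sum_empty]
    positivity
  have hd : 0 < d := (hS p0 hp0).2.2 ▸ od_pos (hS p0 hp0).1 (hS p0 hp0).2.1
  have hd' : (0 : ℝ) < d := by exact_mod_cast hd
  have h1 : ∀ p ∈ S, d * ((p - 1) / d) + 1 = p := by
    intro p hp
    obtain ⟨a, b, c⟩ := hS p hp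
    rw [Nat.mul_div_cancel' (c ▸ od_dvd a b)]
    have := a.two_le
    omega
  have h2 : ∀ p ∈ S, 0 < (p - 1) / d := by
    intro p hp
    have h3 := h1 p hp
    have := (hS p hp).1.two_le
    rcases Nat.eq_zero_or_pos ((p - 1) / d) with h | h
    · rw [h] at h3; omega
    · exact h
  have h3 := sum_inv_le hd (S := S.image fun p => (p - 1) / d) (fun j hj => by
    obtain ⟨p, hp, rfl⟩ := mem_image.1 hj
    exact h2 p hp) (card_image_le.trans (card_primes_le hd fun p hp =>
      ⟨(hS p hp).1, (hS p hp).2.2 ▸ pow_orderOf_eq_one _⟩))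
  rw [sum_image fun a ha b hb hab => by rw [← h1 a ha, ← h1 b hb]; exact congrArg (d * · + 1) hab]
    at h3
  rw [le_div_iff₀ hd', sum_mul]
  refine le_trans (sum_le_sum fun p hp => ?_) h3
  have h4 : (0 : ℝ) < ((p - 1) / d : ℕ) := by exact_mod_cast h2 p hp
  have h5 : (0 : ℝ) < p := by exact_mod_cast (hS p hp).1.pos
  rw [div_mul_eq_mul_div, div_le_div_iff₀ h5 h4, one_mul, one_mul]
  exact_mod_cast (by linarith [h1 p hp])

end Pool.Agent.P.MP_42fc1a_nt
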