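import Pool.Agent.P.MP_42fc1a_nt.Sums

/-! The total loss in the distortion method is less than one. -/

set_option autoImplicit false
set_option linter.unusedSectionVars false

namespace Pool.Agent.P.MP_42fc1a_nt

open Finset Real
open ArithmeticFunction (cardFactors cardFactors_mul cardFactors_apply_prime cardFactors_apply)

/-- the distorted weight of a prime -/
noncomputable def aw (D h1 p : ℕ) : ℝ :=
  (6 / 5) ^ (cardFactors (oe D p) + 1) * wt h1 p (oe D p)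

/-- the largest prime factor of `e` above `y`, or zero -/
def tp (y e : ℕ) : ℕ := (e.primeFactors.filter (y < ·)).sup id

theorem aw_nonneg (D h1 p : ℕ) : 0 ≤ aw D h1 p := mul_nonneg (by positivity) (wt_nonneg _ _ _)

theorem le_tp {y e q : ℕ} (he : e ≠ 0) (hq : q.Prime) (h : q ∣ e) (hy : y < q) : q ≤ tp y e :=
  le_sup (f := id) (mem_filter.2 ⟨Nat.mem_primeFactors.2 ⟨hq, h, he⟩, hy⟩)

theorem tp_spec {y e : ℕ} (h : tp y e ≠ 0) : (tp y e).Prime ∧ tp y e ∣ e ∧ y < tp y e := by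
  rcases (e.primeFactors.filter (y < ·)).eq_empty_or_nonempty with h0 | h0
  · simp [tp, h0] at h
  · obtain ⟨q, hq, h1⟩ := exists_mem_eq_sup _ h0 id
    rw [tp, h1]
    obtain ⟨h2, h3⟩ := mem_filter.1 hq
    exact ⟨Nat.prime_of_mem_primeFactors h2, Nat.dvd_of_mem_primeFactors h2, h3⟩

theorem cardFactors_mono {a b : ℕ} (hb : b ≠ 0) (h : a ∣ b) : cardFactors a ≤ cardFactors b := by
  obtain ⟨c, rfl⟩ := h
  rw [cardFactors_mul (left_ne_zero_of_mul hb) (right_ne_zero_of_mul hb)]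
  omega

theorem log_le_smooth {L d : ℕ} (hd : d ∈ (L + 1).smoothNumbers) :
    log d ≤ cardFactors d * log L := by
  have h1 : d ≤ L ^ cardFactors d := by
    conv_lhs => rw [← Nat.prod_primeFactorsList hd.1]
    exact List.prod_le_pow_card _ _ fun p hp => Nat.lt_succ_iff.1 (hd.2 p hp)
  rw [← log_pow]
  exact log_le_log (by exact_mod_cast Nat.pos_of_ne_zero hd.1) (by exact_mod_cast h1)

theorem oe_pos (D : ℕ) {p : ℕ} (hp : p.Prime) (h2 : p ≠ 2) : 0 < oe D p :=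
  Nat.pos_of_dvd_of_pos (oe_dvd D p) (od_pos hp h2)

theorem one_le_log {L : ℕ} (hL : 3 ≤ L) : 1 ≤ log L := by
  have : (3 : ℝ) ≤ L := by exact_mod_cast hL
  rw [le_log_iff_exp_le (by linarith)]
  linarith [exp_one_lt_d9]

theorem W_le {D h1 L : ℕ} (hD : 0 < D) (hh : 0 < h1) (hL : 3 ≤ L) {P : Finset ℕ}
    (hP : ∀ p ∈ P, p.Prime ∧ p ≠ 2 ∧ od p ∈ (L + 1).smoothNumbers) :
    ∑ p ∈ P, aw D h1 p ≤ 12 * log L * ∑ d ∈ P.image od, fm d +
      6 / 5 * (D / h1) * ∑ e ∈ P.image (oe D), fm e := by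
  have hL1 := one_le_log hL
  simp only [aw, wt, mul_add, sum_add_distrib]
  refine add_le_add ?_ ?_
  · rw [← sum_fiberwise_of_maps_to (g := od) (fun p hp => mem_image_of_mem _ hp), mul_sum]
    refine sum_le_sum fun d hd => ?_
    obtain ⟨p0, hp0, hd0⟩ := mem_image.1 hd
    have hs : d ∈ (L + 1).smoothNumbers := hd0 ▸ (hP p0 hp0).2.2
    have h2 := sum_od_le (d := d) (S := P.filter fun p => od p = d) fun p hp =>
      ⟨(hP p (mem_filter.1 hp).1).1, (hP p (mem_filter.1 hp).1).2.1, (mem_filter.1 hp).2⟩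
    have h3 : 2 + log d ≤ 5 * (6 / 5) ^ cardFactors d * log L := by
      have a1 := log_le_smooth hs
      have a2 := one_add_mul_le_pow (a := (1 / 5 : ℝ)) (by norm_num) (cardFactors d)
      rw [show (1 + 1 / 5 : ℝ) = 6 / 5 by norm_num] at a2
      nlinarith
    calc _ ≤ ∑ p ∈ P.filter fun p => od p = d,
          (6 / 5) ^ (cardFactors d + 1) * 2 * (1 / (p : ℝ)) := by
          refine sum_le_sum fun p hp => ?_
          rw [mul_assoc, mul_one_div]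
          gcongr
          · norm_num
          · exact cardFactors_mono hs.1 ((mem_filter.1 hp).2 ▸ oe_dvd D p)
      _ ≤ (6 / 5) ^ (cardFactors d + 1) * 2 * ((5 * (6 / 5) ^ cardFactors d * log L) / d) := by
          rw [← mul_sum]
          gcongr
          exact h2.trans (by gcongr)
      _ = _ := by
          rw [fm_apply, show (36 / 25 : ℝ) = 6 / 5 * (6 / 5) by norm_num, mul_pow]
          ring
  · rw [← sum_fiberwise_of_maps_to (g := oe D) (fun p hp => mem_image_of_mem _ hp), mul_sum]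
    refine sum_le_sum fun e he => ?_
    obtain ⟨p0, hp0, he0⟩ := mem_image.1 he
    have he1 : 0 < e := he0 ▸ oe_pos D (hP p0 hp0).1 (hP p0 hp0).2.1
    have h2 := card_primes_le (Nat.mul_pos hD he1) (S := P.filter fun p => oe D p = e)
      fun p hp => ⟨(hP p (mem_filter.1 hp).1).1, by
        rw [pow_mul, ← (mem_filter.1 hp).2]; exact pow_orderOf_eq_one _⟩
    rw [sum_congr rfl fun p hp => by rw [(mem_filter.1 hp).2], sum_const, nsmul_eq_mul]
    have he2 : (1 : ℝ) ≤ e := by exact_mod_cast he1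
    have hh' : (0 : ℝ) < h1 := by exact_mod_cast hh
    split_ifs with h
    · have h3 : (h1 : ℝ) ≤ e := by exact_mod_cast h.le
      calc _ ≤ ((D * e : ℕ) : ℝ) * ((6 / 5) ^ (cardFactors e + 1) * (1 / (e : ℝ) ^ 4)) := by
            gcongr
        _ = 6 / 5 * (D / e) * ((6 / 5) ^ cardFactors e / (e * e)) := by
            push_cast
            field_simp
            ring
        _ ≤ _ := by
            rw [fm_apply]
            refine mul_le_mul (by gcongr) (div_le_div₀ (by positivity)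
              (pow_le_pow_left₀ (by norm_num) (by norm_num) _) (by linarith) (by nlinarith))
              (by positivity) (by positivity)
    · have := fm_nonneg e
      simp only [mul_zero]
      positivity

theorem dvd_oe {y D p q : ℕ} (hD : D ∈ (y + 1).smoothNumbers) (hq : q.Prime) (hy : y < q)
    (h : q ∣ od p) : q ∣ oe D p := by
  have h1 : od p = oe D p * (od p).gcd D := by
    rw [oe, orderOf_pow' _ hD.1, ← od, Nat.div_mul_cancel (Nat.gcd_dvd_left _ _)]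
  rw [h1] at h
  refine (hq.dvd_mul.1 h).resolve_right fun h2 => ?_
  have := Nat.mem_smoothNumbers'.1 hD q hq (h2.trans (Nat.gcd_dvd_right _ _))
  omega

theorem od_smooth {y D p L : ℕ} (hD : D ∈ (y + 1).smoothNumbers) (hp : p.Prime) (h2 : p ≠ 2)
    (hy : y ≤ L) (hL : tp y (oe D p) ≤ L) : od p ∈ (L + 1).smoothNumbers := by
  refine Nat.mem_smoothNumbers'.2 fun q hq h => ?_
  by_cases h3 : y < q
  · have := le_tp (oe_pos D hp h2).ne' hq (dvd_oe hD hq h3 h) h3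
    omega
  · omega

theorem W_top : ∃ C : ℝ, 0 < C ∧ ∀ y D h1 l : ℕ, 3 ≤ y → D ∈ (y + 1).smoothNumbers → D ≤ h1 →
    l ≠ 0 → ∀ P : Finset ℕ, (∀ p ∈ P, p.Prime ∧ p ≠ 2 ∧ tp y (oe D p) = l) →
      ∑ p ∈ P, aw D h1 p ≤ C / (l : ℝ) ^ (3 / 4 : ℝ) := by
  obtain ⟨C, hC, H⟩ := PiF_le
  refine ⟨140 * C, by positivity, fun y D h1 l hy hD hh hl P hP => ?_⟩
  rcases P.eq_empty_or_nonempty with rfl | ⟨p0, hp0⟩
  · simp only [sum_empty]; positivity
  have hD0 := Nat.pos_of_ne_zero hD.1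
  have h2 := tp_spec ((hP p0 hp0).2.2 ▸ hl)
  rw [(hP p0 hp0).2.2] at h2
  have h3 : ∀ p ∈ P, od p ∈ (l + 1).smoothNumbers := fun p hp =>
    od_smooth hD (hP p hp).1 (hP p hp).2.1 h2.2.2.le (hP p hp).2.2.le
  have h4 : ∀ p ∈ P, l ∣ oe D p := fun p hp => by
    have := (tp_spec ((hP p hp).2.2 ▸ hl)).2.1
    rwa [(hP p hp).2.2] at this
  have h5 := W_le hD0 (hD0.trans_le hh) (L := l) (by omega)
    fun p hp => ⟨(hP p hp).1, (hP p hp).2.1, h3 p hp⟩
  have h6 := sum_fm_dvd (L := l + 1) (l := l) (S := P.image od) fun d hd => by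
    obtain ⟨p, hp, rfl⟩ := mem_image.1 hd
    exact ⟨h3 p hp, (h4 p hp).trans (oe_dvd D p)⟩
  have h7 := sum_fm_dvd (L := l + 1) (l := l) (S := P.image (oe D)) fun d hd => by
    obtain ⟨p, hp, rfl⟩ := mem_image.1 hd
    exact ⟨Nat.mem_smoothNumbers_of_dvd (h3 p hp) (oe_dvd D p), h4 p hp⟩
  have hl0 : (0 : ℝ) < l := by exact_mod_cast h2.1.pos
  have hl1 : (1 : ℝ) ≤ l := by exact_mod_cast h2.1.pos
  have h8 : fm l * PiF (l + 1) ≤ 36 / 25 / l * (C * (l : ℝ) ^ (1 / 8 : ℝ)) := by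
    rw [fm_prime h2.1]
    gcongr
    exact H l h2.1.pos
  have h9 := log_le_rpow_div hl0.le (show (0 : ℝ) < 1 / 8 by norm_num)
  have h10 : 1 ≤ (l : ℝ) ^ (1 / 8 : ℝ) := one_le_rpow hl1 (by norm_num)
  have h11 : (D : ℝ) / h1 ≤ (l : ℝ) ^ (1 / 8 : ℝ) := by
    refine le_trans ?_ h10
    rw [div_le_one (by exact_mod_cast hD0.trans_le hh)]
    exact_mod_cast hh
  have h12 : (l : ℝ) = (l : ℝ) ^ (3 / 4 : ℝ) * ((l : ℝ) ^ (1 / 8 : ℝ) * (l : ℝ) ^ (1 / 8 : ℝ)) := by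
    rw [← rpow_add hl0, ← rpow_add hl0]; norm_num
  have h13 : 0 < (l : ℝ) ^ (3 / 4 : ℝ) := by positivity
  calc _ ≤ _ := h5
    _ ≤ 12 * ((l : ℝ) ^ (1 / 8 : ℝ) / (1 / 8)) * (36 / 25 / l * (C * (l : ℝ) ^ (1 / 8 : ℝ))) +
        6 / 5 * (l : ℝ) ^ (1 / 8 : ℝ) * (36 / 25 / l * (C * (l : ℝ) ^ (1 / 8 : ℝ))) := by
      gcongr
      · exact sum_nonneg fun _ _ => fm_nonneg _
      · exact h6.trans h8
      · exact sum_nonneg fun _ _ => fm_nonneg _
      · exact h7.trans h8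
    _ = (17496 / 125 * C) * (((l : ℝ) ^ (1 / 8 : ℝ) * (l : ℝ) ^ (1 / 8 : ℝ)) / l) := by ring
    _ ≤ _ := by
      generalize (l : ℝ) ^ (1 / 8 : ℝ) = r at *
      generalize (l : ℝ) ^ (3 / 4 : ℝ) = s at *
      rw [h12, mul_comm s, ← div_div, div_self (by positivity), mul_one_div]
      gcongr
      norm_num

theorem W_zero (y : ℕ) (hy : 3 ≤ y) : ∃ D ∈ (y + 1).smoothNumbers, ∃ H : ℕ, D ≤ H ∧
    ∀ h1 : ℕ, H ≤ h1 → ∀ P : Finset ℕ,
      (∀ p ∈ P, p.Prime ∧ p ≠ 2 ∧ 1 < oe D p ∧ tp y (oe D p) = 0) →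
      ∑ p ∈ P, aw D h1 p ≤ 1 / 24 := by
  have hL := one_le_log hy
  obtain ⟨D, hD, H⟩ := tail_fm (y + 1) (ε := 1 / (576 * log y)) (by positivity)
  obtain ⟨H0, hH0⟩ := exists_nat_ge (60 * D * PiF (y + 1))
  refine ⟨D, hD, H0 + D, by omega, fun h1 hh P hP => ?_⟩
  have hD0 := Nat.pos_of_ne_zero hD.1
  have h3 : ∀ p ∈ P, od p ∈ (y + 1).smoothNumbers := fun p hp =>
    od_smooth hD (hP p hp).1 (hP p hp).2.1 le_rfl ((hP p hp).2.2.2.le.trans (Nat.zero_le _))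
  have h5 := W_le hD0 (h1 := h1) (by omega) hy fun p hp => ⟨(hP p hp).1, (hP p hp).2.1, h3 p hp⟩
  have h6 := H (P.image od) fun d hd => by
    obtain ⟨p, hp, rfl⟩ := mem_image.1 hd
    refine ⟨h3 p hp, fun h => ?_⟩
    have := (hP p hp).2.2.1
    rw [oe, orderOf_dvd_iff_pow_eq_one.1 h, orderOf_one] at this
    omega
  have h7 := sum_fm_le (L := y + 1) (S := P.image (oe D)) fun d hd => by
    obtain ⟨p, hp, rfl⟩ := mem_image.1 hd
    exact Nat.mem_smoothNumbers_of_dvd (h3 p hp) (oe_dvd D p)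
  have h8 : (0 : ℝ) < h1 := by exact_mod_cast (by omega)
  have h9 : (H0 : ℝ) ≤ h1 := by exact_mod_cast (by omega)
  have h10 : (D : ℝ) / h1 * PiF (y + 1) ≤ 1 / 60 := by
    rw [div_mul_eq_mul_div, div_le_iff₀ h8]
    linarith
  calc _ ≤ _ := h5
    _ ≤ 12 * log y * (1 / (576 * log y)) + 6 / 5 * (D / h1) * PiF (y + 1) := by gcongr
    _ = 1 / 48 + 6 / 5 * (D / h1 * PiF (y + 1)) := by field_simp; ring
    _ ≤ _ := by linarith

theorem sums_small : ∃ y D H : ℕ, D ∈ (y + 1).smoothNumbers ∧ ∀ h1 : ℕ, H ≤ h1 →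
    ∀ P : Finset ℕ, (∀ p ∈ P, p.Prime ∧ p ≠ 2 ∧ 1 < oe D p) →
      6 * (∑ p ∈ P, ∑ p' ∈ P, (if tp y (oe D p) = tp y (oe D p') then aw D h1 p * aw D h1 p'
        else 0) + ∑ p ∈ P, aw D h1 p / (max 1 (tp y (oe D p)) : ℕ)) < 1 := by
  obtain ⟨C, hC, HC⟩ := W_top
  have hs : Summable fun j : ℕ => (C ^ 2 + C) * ((j : ℝ) ^ (3 / 2 : ℝ))⁻¹ :=
    (summable_nat_rpow_inv.2 (by norm_num)).mul_left _
  obtain ⟨s, hs⟩ := summable_iff_vanishing_norm.1 hs (1 / 24) (by norm_num)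
  obtain ⟨D, hD, H, hH, HD⟩ := W_zero (s.sup id + 3) (by omega)
  set y := s.sup id + 3 with hy
  refine ⟨y, D, H, hD, fun h1 hh P hP => ?_⟩
  let t : ℕ → ℕ := fun p => tp y (oe D p)
  let W : ℕ → ℝ := fun j => ∑ p ∈ P.filter fun p => t p = j, aw D h1 p
  have h0 : ∀ j, 0 ≤ W j := fun j => sum_nonneg fun _ _ => aw_nonneg _ _ _
  have h2 : ∑ p ∈ P, ∑ p' ∈ P, (if t p = t p' then aw D h1 p * aw D h1 p' else 0) +
      ∑ p ∈ P, aw D h1 p / (max 1 (t p) : ℕ) =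
      ∑ j ∈ P.image t, W j * (W j + 1 / (max 1 j : ℕ)) := by
    rw [← sum_add_distrib,
      ← sum_fiberwise_of_maps_to (g := t) (fun p hp => mem_image_of_mem _ hp)]
    refine sum_congr rfl fun j _ => ?_
    rw [sum_mul]
    refine sum_congr rfl fun p hp => ?_
    rw [(mem_filter.1 hp).2, ← sum_filter, ← mul_sum, mul_add, mul_one_div]
    simp only [W, eq_comm]
  have h3 : ∀ j ∈ (P.image t).erase 0, W j * (W j + 1 / (max 1 j : ℕ)) ≤
      (C ^ 2 + C) * ((j : ℝ) ^ (3 / 2 : ℝ))⁻¹ := by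
    intro j hj
    have hj0 := (mem_erase.1 hj).1
    have a1 : W j ≤ C / (j : ℝ) ^ (3 / 4 : ℝ) := HC y D h1 j (by omega) hD (hH.trans hh) hj0 _
      fun p hp => ⟨(hP p (mem_filter.1 hp).1).1, (hP p (mem_filter.1 hp).1).2.1,
        (mem_filter.1 hp).2⟩
    have a2 : (1 : ℝ) ≤ j := by exact_mod_cast Nat.pos_of_ne_zero hj0
    have a3 : (j : ℝ) ^ (3 / 4 : ℝ) ≤ (max 1 j : ℕ) := by
      rw [max_eq_right (Nat.pos_of_ne_zero hj0)]
      exact rpow_le_self_of_one_le a2 (by norm_num)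
    have a4 : (j : ℝ) ^ (3 / 2 : ℝ) = (j : ℝ) ^ (3 / 4 : ℝ) * (j : ℝ) ^ (3 / 4 : ℝ) := by
      rw [← rpow_add (by linarith)]; norm_num
    have a5 : 0 < (j : ℝ) ^ (3 / 4 : ℝ) := by positivity
    have := h0 j
    calc _ ≤ C / (j : ℝ) ^ (3 / 4 : ℝ) * (C / (j : ℝ) ^ (3 / 4 : ℝ) + 1 / (j : ℝ) ^ (3 / 4 : ℝ)) := by
          gcongr
      _ = _ := by rw [a4]; field_simp
  have h4 := hs ((P.image t).erase 0) (disjoint_left.2 fun j hj hj' => by
    obtain ⟨a1, a2⟩ := mem_erase.1 hj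
    obtain ⟨p, -, rfl⟩ := mem_image.1 a2
    have a3 : y < t p := (tp_spec a1).2.2
    have a4 : t p ≤ s.sup id := le_sup (f := id) hj'
    omega)
  have h5 := (sum_le_sum h3).trans ((le_abs_self _).trans h4.le)
  have h6 : W 0 ≤ 1 / 24 := HD h1 hh _ fun p hp =>
    ⟨(hP p (mem_filter.1 hp).1).1, (hP p (mem_filter.1 hp).1).2.1, (hP p (mem_filter.1 hp).1).2.2,
      (mem_filter.1 hp).2⟩
  have h7 : ∑ j ∈ P.image t, W j * (W j + 1 / (max 1 j : ℕ)) ≤
      W 0 * (W 0 + 1 / (max 1 0 : ℕ)) +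
        ∑ j ∈ (P.image t).erase 0, W j * (W j + 1 / (max 1 j : ℕ)) := by
    rw [← sum_insert (f := fun j => W j * (W j + 1 / (max 1 j : ℕ))) (notMem_erase _ _)]
    refine sum_le_sum_of_subset_of_nonneg (subset_insert_iff.2 subset_rfl) fun j _ _ => ?_
    have := h0 j
    positivity
  have h8 : W 0 * (W 0 + 1 / (max 1 0 : ℕ)) ≤ 1 / 12 := by
    have := h0 0
    simp only [Nat.zero_le, sup_of_le_left, Nat.cast_one]
    nlinarith
  change 6 * (∑ p ∈ P, ∑ p' ∈ P, (if t p = t p' then aw D h1 p * aw D h1 p' else 0) +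
      ∑ p ∈ P, aw D h1 p / (max 1 (t p) : ℕ)) < 1
  rw [h2]
  linarith

end Pool.Agent.P.MP_42fc1a_nt
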